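import Pool.Agent.Helper23.Riesz.Defs4
import Pool.Agent.Helper9.Riesz.Const
import Pool.Agent.Helper9.Riesz.HSLower
import Pool.Agent.Helper40.Riesz.HSUpper
import Pool.Agent.Helper94.Riesz.Cube

/-!
# Assembly of the two-term asymptotics (for the own statement)
-/

set_option autoImplicit false
open MeasureTheory Set Filter Topology
open scoped ENNReal NNReal

namespace Helper23.RieszOwn

open Helper23.Riesz

/-- a limit of the scaled difference gives the little-o statement -/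
theorem littleO_of_tendsto {d : ℕ} {s : ℝ} {a : ℕ → ℝ} {C : ℝ}
    (h : Tendsto (fun N : ℕ => a N / (N : ℝ) ^ (1 + s / d)) atTop (𝓝 C)) :
    Asymptotics.IsLittleO atTop
      (fun N : ℕ => a N - C * (N:ℝ) ^ (1 + s / (d:ℝ)))
      (fun N : ℕ => (N:ℝ) ^ (1 + s / (d:ℝ))) := by
  rw [Asymptotics.isLittleO_iff_tendsto']
  · have h1 : Tendsto (fun N : ℕ => a N / (N : ℝ) ^ (1 + s / d) - C) atTop (𝓝 0) := by
      simpa using h.sub_const C
    refine h1.congr' ?_
    filter_upwards [eventually_ge_atTop 1] with N hN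
    have hN' : (0:ℝ) < (N : ℝ) ^ (1 + s / (d:ℝ)) :=
      Real.rpow_pos_of_pos (by exact_mod_cast hN) _
    field_simp
  · filter_upwards [eventually_ge_atTop 1] with N hN h0
    have hN' : (0:ℝ) < (N : ℝ) ^ (1 + s / (d:ℝ)) :=
      Real.rpow_pos_of_pos (by exact_mod_cast hN) _
    exact absurd h0 hN'.ne'

/-- case `s > d` (Hardin-Saff) -/
theorem asm_big {d : ℕ} (hd : 1 ≤ d) {s : ℝ} (hs : (d:ℝ) < s) (v : ℝ) : ∃ C : ℝ,
    Tendsto (fun N : ℕ => (N:ℝ) ^ (-1 - s / (d:ℝ)) * Ecube s d N) atTop (𝓝 C) ∧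
    Asymptotics.IsLittleO atTop
      (fun N : ℕ => Emin s d N - (N:ℝ) ^ 2 * v -
        (omega d) ^ (-s / (d:ℝ)) * C * (N:ℝ) ^ (1 + s / (d:ℝ)))
      (fun N : ℕ => (N:ℝ) ^ (1 + s / (d:ℝ))) := by
  obtain ⟨C, -, hC⟩ := cube_limit hd hs
  have hd0 : (0:ℝ) < d := by exact_mod_cast hd
  refine ⟨C, ?_, ?_⟩
  · refine hC.congr' ?_
    filter_upwards [eventually_ge_atTop 1] with N hN
    have hN' : (0:ℝ) < N := by exact_mod_cast hN
    rw [show -1 - s / (d:ℝ) = -(1 + s / (d:ℝ)) by ring, Real.rpow_neg hN'.le, div_eq_inv_mul]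
  · have h1 : Tendsto (fun N : ℕ => Emin s d N / (N : ℝ) ^ (1 + s / d)) atTop
        (𝓝 (C * (omega d) ^ (-s / d))) := by
      rw [Metric.tendsto_atTop]
      intro ε hε
      have h2 := hs_upper hd hs C hC (ε / 2) (half_pos hε)
      have h3 := hs_lower hd hs C hC (ε / 2) (half_pos hε)
      obtain ⟨N₀, hN₀⟩ := eventually_atTop.1 (h2.and h3)
      refine ⟨N₀, fun N hN => ?_⟩
      have h4 := hN₀ N hN
      rw [Real.dist_eq, abs_lt]
      constructor <;> linarith [h4.1, h4.2]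
    have h5 : Tendsto (fun N : ℕ => (N : ℝ) ^ 2 * v / (N : ℝ) ^ (1 + s / d)) atTop (𝓝 0) := by
      have h6 : Tendsto (fun N : ℕ => (N : ℝ) ^ (-(s / (d:ℝ) - 1))) atTop (𝓝 0) := by
        refine (tendsto_rpow_neg_atTop ?_).comp tendsto_natCast_atTop_atTop
        have : 1 < s / (d:ℝ) := (one_lt_div hd0).2 hs
        linarith
      have h7 := h6.mul_const (v)
      rw [zero_mul] at h7
      refine h7.congr' ?_
      filter_upwards [eventually_ge_atTop 1] with N hN
      have hN' : (0:ℝ) < N := by exact_mod_cast hN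
      rw [show -(s / (d:ℝ) - 1) = 2 - (1 + s / (d:ℝ)) by ring, Real.rpow_sub hN']
      have : (N:ℝ) ^ (2:ℝ) = (N:ℝ) ^ 2 := by exact_mod_cast Real.rpow_natCast (N:ℝ) 2
      rw [this]; ring
    have h8 : Tendsto (fun N : ℕ => (Emin s d N - (N:ℝ) ^ 2 * v) / (N : ℝ) ^ (1 + s / d)) atTop
        (𝓝 (C * (omega d) ^ (-s / d))) := by
      have := h1.sub h5
      rw [sub_zero] at this
      refine this.congr fun N => ?_
      rw [sub_div]
    have h9 := littleO_of_tendsto h8
    refine h9.congr_left fun N => ?_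
    ring

lemma infinite_S {d : ℕ} (hd : 1 ≤ d) : (Set.univ : Set (S d)).Infinite := by
  intro hfin
  have h0 : sig d (Set.univ : Set (S d)) = 0 := by
    rw [← Set.biUnion_of_singleton (Set.univ : Set (S d))]
    exact (measure_biUnion_null_iff hfin.countable).2 fun x _ => sig_singleton hd x
  have := isProbabilityMeasure_sig d
  rw [measure_univ] at h0
  exact one_ne_zero h0

/-- the case `s = 0` -/
theorem Emax_zero {d : ℕ} (hd : 1 ≤ d) (N : ℕ) : Emax 0 d N = (N : ℝ) ^ 2 - N := by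
  classical
  have hen : ∀ Y : Finset (S d), Y.card = N → en 0 Y = (N : ℝ) ^ 2 - N := by
    intro Y hY
    unfold en
    have h1 : ∀ x ∈ Y, ∑ y ∈ Y.erase x, K 0 x y = (N : ℝ) - 1 := by
      intro x hx
      have h2 : ∀ y : S d, K 0 x y = 1 := fun y => by unfold K; simp
      simp_rw [h2]
      rw [Finset.sum_const, Finset.card_erase_of_mem hx, hY, nsmul_eq_mul, mul_one]
      have : 1 ≤ N := by
        rw [← hY]; exact Finset.card_pos.2 ⟨x, hx⟩
      push_cast [this]; ring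
    rw [Finset.sum_congr rfl h1, Finset.sum_const, hY, nsmul_eq_mul]
    ring
  obtain ⟨Y, -, hY⟩ := (infinite_S hd).exists_subset_card_eq N
  have hset : {e : ℝ | ∃ Y : Finset (S d), Y.card = N ∧ e = en 0 Y} = {(N : ℝ) ^ 2 - N} := by
    ext e
    constructor
    · rintro ⟨Y, hY, rfl⟩
      exact hen Y hY
    · rintro rfl
      exact ⟨Y, hY, (hen Y hY).symm⟩
  unfold Emax
  rw [hset, csSup_singleton]

theorem V_zero {d : ℕ} : V 0 d = 1 := by
  have := isProbabilityMeasure_sig d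
  unfold V avg2 K
  simp

end Helper23.RieszOwn
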