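import Pool.Agent.Helper23.Riesz.Defs4
import Pool.Agent.Helper9.Riesz.Const
import Pool.Agent.Helper9.Riesz.HSLower
import Pool.Agent.Helper40.Riesz.HSUpper
import Pool.Agent.Helper34.Riesz.Trans
import Pool.Agent.Helper94.Riesz.Cube

/-!
# Assembly of the two-term asymptotics
-/

set_option autoImplicit false
open MeasureTheory Set Filter Topology
open scoped ENNReal NNReal

namespace Helper23.Riesz

/-- a limit of the scaled difference gives the little-o statement -/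
theorem littleO_of_tendsto {d : ℕ} {s : ℝ} {a : ℕ → ℝ} {C : ℝ}
    (h : Tendsto (fun N : ℕ => a N / (N : ℝ) ^ (1 + s / d)) atTop (𝓝 C)) :
    Asymptotics.IsLittleO atTop
      (fun N : ℕ => a N - C * (N:ℝ) ^ (1 + s / (d:ℝ)))
      (fun N : ℕ => (N:ℝ) ^ (1 + s / (d:ℝ))) := by
  rw [Asymptotics.isLittleO_iff_tendsto']
  · have h1 : Tendsto (fun N : ℕ => a N / (N : ℝ) ^ (1 + s / d) - C) atTop (𝓝 0) := by
      simpa using h.sub_const C
    refine h1.congr' ?_
    filter_upwards [eventually_ge_atTop 1] with N hN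
    have hN' : (0:ℝ) < (N : ℝ) ^ (1 + s / (d:ℝ)) :=
      Real.rpow_pos_of_pos (by exact_mod_cast hN) _
    field_simp
  · filter_upwards [eventually_ge_atTop 1] with N hN h0
    have hN' : (0:ℝ) < (N : ℝ) ^ (1 + s / (d:ℝ)) :=
      Real.rpow_pos_of_pos (by exact_mod_cast hN) _
    exact absurd h0 hN'.ne'

/-- case `s > d` (Hardin-Saff) -/
theorem asm_big {d : ℕ} (hd : 1 ≤ d) {s : ℝ} (hs : (d:ℝ) < s) (v : ℝ) : ∃ C : ℝ,
    Tendsto (fun N : ℕ => (N:ℝ) ^ (-1 - s / (d:ℝ)) * Ecube s d N) atTop (𝓝 C) ∧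
    Asymptotics.IsLittleO atTop
      (fun N : ℕ => Emin s d N - (N:ℝ) ^ 2 * v -
        (omega d) ^ (-s / (d:ℝ)) * C * (N:ℝ) ^ (1 + s / (d:ℝ)))
      (fun N : ℕ => (N:ℝ) ^ (1 + s / (d:ℝ))) := by
  obtain ⟨C, -, hC⟩ := cube_limit hd hs
  have hd0 : (0:ℝ) < d := by exact_mod_cast hd
  refine ⟨C, ?_, ?_⟩
  · refine hC.congr' ?_
    filter_upwards [eventually_ge_atTop 1] with N hN
    have hN' : (0:ℝ) < N := by exact_mod_cast hN
    rw [show -1 - s / (d:ℝ) = -(1 + s / (d:ℝ)) by ring, Real.rpow_neg hN'.le, div_eq_inv_mul]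
  · have h1 : Tendsto (fun N : ℕ => Emin s d N / (N : ℝ) ^ (1 + s / d)) atTop
        (𝓝 (C * (omega d) ^ (-s / d))) := by
      rw [Metric.tendsto_atTop]
      intro ε hε
      have h2 := hs_upper hd hs C hC (ε / 2) (half_pos hε)
      have h3 := hs_lower hd hs C hC (ε / 2) (half_pos hε)
      obtain ⟨N₀, hN₀⟩ := eventually_atTop.1 (h2.and h3)
      refine ⟨N₀, fun N hN => ?_⟩
      have h4 := hN₀ N hN
      rw [Real.dist_eq, abs_lt]
      constructor <;> linarith [h4.1, h4.2]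
    have h5 : Tendsto (fun N : ℕ => (N : ℝ) ^ 2 * v / (N : ℝ) ^ (1 + s / d)) atTop (𝓝 0) := by
      have h6 : Tendsto (fun N : ℕ => (N : ℝ) ^ (-(s / (d:ℝ) - 1))) atTop (𝓝 0) := by
        refine (tendsto_rpow_neg_atTop ?_).comp tendsto_natCast_atTop_atTop
        have : 1 < s / (d:ℝ) := (one_lt_div hd0).2 hs
        linarith
      have h7 := h6.mul_const (v)
      rw [zero_mul] at h7
      refine h7.congr' ?_
      filter_upwards [eventually_ge_atTop 1] with N hN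
      have hN' : (0:ℝ) < N := by exact_mod_cast hN
      rw [show -(s / (d:ℝ) - 1) = 2 - (1 + s / (d:ℝ)) by ring, Real.rpow_sub hN']
      have : (N:ℝ) ^ (2:ℝ) = (N:ℝ) ^ 2 := by exact_mod_cast Real.rpow_natCast (N:ℝ) 2
      rw [this]; ring
    have h8 : Tendsto (fun N : ℕ => (Emin s d N - (N:ℝ) ^ 2 * v) / (N : ℝ) ^ (1 + s / d)) atTop
        (𝓝 (C * (omega d) ^ (-s / d))) := by
      have := h1.sub h5
      rw [sub_zero] at this
      refine this.congr fun N => ?_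
      rw [sub_div]
    have h9 := littleO_of_tendsto h8
    refine h9.congr_left fun N => ?_
    ring

lemma infinite_S {d : ℕ} (hd : 1 ≤ d) : (Set.univ : Set (S d)).Infinite := by
  intro hfin
  have h0 : sig d (Set.univ : Set (S d)) = 0 := by
    rw [← Set.biUnion_of_singleton (Set.univ : Set (S d))]
    exact (measure_biUnion_null_iff hfin.countable).2 fun x _ => sig_singleton hd x
  have := isProbabilityMeasure_sig d
  rw [measure_univ] at h0
  exact one_ne_zero h0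

/-- the case `s = 0` -/
theorem Emax_zero {d : ℕ} (hd : 1 ≤ d) (N : ℕ) : Emax 0 d N = (N : ℝ) ^ 2 - N := by
  classical
  have hen : ∀ Y : Finset (S d), Y.card = N → en 0 Y = (N : ℝ) ^ 2 - N := by
    intro Y hY
    unfold en
    have h1 : ∀ x ∈ Y, ∑ y ∈ Y.erase x, K 0 x y = (N : ℝ) - 1 := by
      intro x hx
      have h2 : ∀ y : S d, K 0 x y = 1 := fun y => by unfold K; simp
      simp_rw [h2]
      rw [Finset.sum_const, Finset.card_erase_of_mem hx, hY, nsmul_eq_mul, mul_one]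
      have : 1 ≤ N := by
        rw [← hY]; exact Finset.card_pos.2 ⟨x, hx⟩
      push_cast [this]; ring
    rw [Finset.sum_congr rfl h1, Finset.sum_const, hY, nsmul_eq_mul]
    ring
  obtain ⟨Y, -, hY⟩ := (infinite_S hd).exists_subset_card_eq N
  have hset : {e : ℝ | ∃ Y : Finset (S d), Y.card = N ∧ e = en 0 Y} = {(N : ℝ) ^ 2 - N} := by
    ext e
    constructor
    · rintro ⟨Y, hY, rfl⟩
      exact hen Y hY
    · rintro rfl
      exact ⟨Y, hY, (hen Y hY).symm⟩
  unfold Emax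
  rw [hset, csSup_singleton]

theorem V_zero {d : ℕ} : V 0 d = 1 := by
  have := isProbabilityMeasure_sig d
  unfold V avg2 K
  simp

/-- the frozen statement, from the two main limits -/
theorem asm_all
    (main_pos : ∀ {d : ℕ}, 1 ≤ d → ∀ {s : ℝ}, 0 < s → s < d → ∃ C : ℝ,
      Tendsto (fun N : ℕ => (Emin s d N - (N : ℝ) ^ 2 * V s d) / (N : ℝ) ^ (1 + s / d)) atTop (𝓝 C))
    (main_neg : ∀ {d : ℕ}, 2 ≤ d → ∀ {s : ℝ}, -2 < s → s < 0 → ∃ C : ℝ,
      Tendsto (fun N : ℕ => gap s d N / (N : ℝ) ^ (1 + s / d)) atTop (𝓝 C)) :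
  ∀ d : ℕ, 2 ≤ d → ∀ s : ℝ, -2 < s → s < (d:ℝ) + 2 → s ≠ (d:ℝ) →
  ∃ C : ℝ,
    ((d:ℝ) < s →
      Filter.Tendsto
        (fun N : ℕ => (N:ℝ) ^ (-1 - s / (d:ℝ)) *
          ⨅ x : {x : Fin N → Fin d → ℝ //
              Function.Injective x ∧ ∀ i k, 0 ≤ x i k ∧ x i k ≤ 1},
            ∑ i : Fin N, ∑ j ∈ Finset.univ.erase i,
              (Real.sqrt (∑ k : Fin d, (x.1 i k - x.1 j k) ^ 2)) ^ (-s))
        Filter.atTop (nhds C)) ∧
    Asymptotics.IsLittleO Filter.atTop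
      (fun N : ℕ =>
        (if 0 < s then
          ⨅ x : {x : Fin N → Fin (d+1) → ℝ //
              Function.Injective x ∧ ∀ i, ∑ k : Fin (d+1), (x i k) ^ 2 = 1},
            ∑ i : Fin N, ∑ j ∈ Finset.univ.erase i,
              (Real.sqrt (∑ k : Fin (d+1), (x.1 i k - x.1 j k) ^ 2)) ^ (-s)
        else
          ⨆ x : {x : Fin N → Fin (d+1) → ℝ //
              Function.Injective x ∧ ∀ i, ∑ k : Fin (d+1), (x i k) ^ 2 = 1},
            ∑ i : Fin N, ∑ j ∈ Finset.univ.erase i,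
              (Real.sqrt (∑ k : Fin (d+1), (x.1 i k - x.1 j k) ^ 2)) ^ (-s))
        - (N:ℝ) ^ 2 *
            ((2:ℝ) ^ ((d:ℝ) - s - 1) * Real.Gamma (((d:ℝ) + 1) / 2)
              * Real.Gamma (((d:ℝ) - s) / 2)
              / (Real.sqrt Real.pi * Real.Gamma ((d:ℝ) - s / 2)))
        - (2 * Real.pi ^ (((d:ℝ) + 1) / 2) / Real.Gamma (((d:ℝ) + 1) / 2)) ^ (-s / (d:ℝ))
            * C * (N:ℝ) ^ (1 + s / (d:ℝ)))
      (fun N : ℕ => (N:ℝ) ^ (1 + s / (d:ℝ))) := by
  intro d hd s hs1 hs2 hsd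
  have hd1 : 1 ≤ d := by omega
  have hom : 0 < omega d := omega_pos hd1
  rw [← omega_eq hd1]
  simp_rw [trans_cube, trans_min, trans_max]
  rcases lt_trichotomy s 0 with h0 | h0 | h0
  · -- s < 0
    have hsd' : s < d := by
      have : (0:ℝ) ≤ d := by positivity
      linarith
    rw [← V_eq hd1 hsd']
    obtain ⟨C, hC⟩ := main_neg hd hs1 h0
    refine ⟨-(C * (omega d) ^ (s / (d:ℝ))), fun h => absurd h (by linarith), ?_⟩
    have h1 := (littleO_of_tendsto hC).neg_left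
    refine h1.congr_left fun N => ?_
    rw [if_neg (by linarith)]
    have h2 : (omega d) ^ (-s / (d:ℝ)) * (omega d) ^ (s / (d:ℝ)) = 1 := by
      rw [← Real.rpow_add hom, neg_div, neg_add_cancel, Real.rpow_zero]
    unfold gap
    linear_combination (-(C * (N:ℝ) ^ (1 + s / (d:ℝ)))) * h2
  · -- s = 0
    subst h0
    rw [← V_eq hd1 (by positivity)]
    refine ⟨-1, fun h => absurd h (by have : (0:ℝ) ≤ d := by positivity
                                      linarith), ?_⟩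
    refine (Asymptotics.isLittleO_zero _ _).congr_left fun N => ?_
    rw [if_neg (lt_irrefl _), Emax_zero hd1, V_zero]
    simp
  · rcases lt_or_gt_of_ne hsd with h1 | h1
    · rw [← V_eq hd1 h1]
      obtain ⟨C, hC⟩ := main_pos hd1 h0 h1
      refine ⟨C * (omega d) ^ (s / (d:ℝ)), fun h => absurd h (by linarith), ?_⟩
      have h2 := littleO_of_tendsto hC
      refine h2.congr_left fun N => ?_
      rw [if_pos h0]
      have h3 : (omega d) ^ (-s / (d:ℝ)) * (omega d) ^ (s / (d:ℝ)) = 1 := by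
        rw [← Real.rpow_add hom, neg_div, neg_add_cancel, Real.rpow_zero]
      linear_combination ((C * (N:ℝ) ^ (1 + s / (d:ℝ)))) * h3
    · obtain ⟨C, hC1, hC2⟩ := asm_big hd1 h1 ((2:ℝ) ^ ((d:ℝ) - s - 1) *
        Real.Gamma (((d:ℝ) + 1) / 2) * Real.Gamma (((d:ℝ) - s) / 2)
        / (Real.sqrt Real.pi * Real.Gamma ((d:ℝ) - s / 2)))
      refine ⟨C, fun _ => hC1, ?_⟩
      simp_rw [if_pos h0]
      exact hC2

end Helper23.Riesz
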