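import Pool.Agent.Helper95.Riesz.SDefs

/-!
# Gaussian double integral over a large box (module BOXG)
-/

set_option autoImplicit false
open MeasureTheory Set Filter Topology
open scoped ENNReal NNReal

namespace Helper23.Riesz

variable {d : ℕ}

namespace BoxG

lemma bx_eq (Λ : ℝ) :
    Bx d Λ = (fun x : R d => WithLp.ofLp x) ⁻¹' (Set.univ.pi fun _ => Icc (-Λ) Λ) := by
  ext x
  simp only [Bx, mem_ofPred_eq, mem_preimage, Set.mem_pi, mem_univ, true_implies, mem_Icc, abs_le]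

lemma measurableSet_bx (Λ : ℝ) : MeasurableSet (Bx d Λ) := by
  rw [bx_eq]
  exact (PiLp.volume_preserving_ofLp (Fin d)).measurable
    (MeasurableSet.univ_pi fun i => measurableSet_Icc)

lemma volume_bx (Λ : ℝ) : volume (Bx d Λ) = ENNReal.ofReal (2 * Λ) ^ d := by
  rw [bx_eq, (PiLp.volume_preserving_ofLp (Fin d)).measure_preimage
    (MeasurableSet.univ_pi fun i => measurableSet_Icc).nullMeasurableSet, volume_pi_pi]
  simp [two_mul]

lemma volume_bx_ne_top (Λ : ℝ) : volume (Bx d Λ) ≠ ∞ := by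
  rw [volume_bx]; exact ENNReal.pow_ne_top ENNReal.ofReal_ne_top

lemma volume_real_bx {Λ : ℝ} (hΛ : 0 ≤ Λ) : (volume : Measure (R d)).real (Bx d Λ) = (2 * Λ) ^ d := by
  rw [Measure.real, volume_bx, ENNReal.toReal_pow, ENNReal.toReal_ofReal (by positivity)]

lemma integral_gauss {t : ℝ} (ht : 0 < t) (x : R d) :
    ∫ y : R d, Real.exp (-(t * dist x y ^ 2)) = (Real.pi / t) ^ ((d : ℝ) / 2) := by
  have h := GaussianFourier.integral_rexp_neg_mul_sq_norm (V := R d) ht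
  have h2 : ∫ y : R d, Real.exp (-(t * dist x y ^ 2)) = ∫ y : R d, Real.exp (-t * ‖y‖ ^ 2) := by
    rw [← integral_sub_right_eq_self (fun y : R d => Real.exp (-t * ‖y‖ ^ 2)) x]
    refine integral_congr_ae (Eventually.of_forall fun y => ?_)
    simp only [dist_eq_norm, norm_sub_rev x y, neg_mul]
  rw [h2, h, finrank_euclideanSpace, Fintype.card_fin]

lemma integrable_gauss {t : ℝ} (ht : 0 < t) (x : R d) :
    Integrable fun y : R d => Real.exp (-(t * dist x y ^ 2)) := by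
  by_contra h
  have h1 := integral_undef h
  rw [integral_gauss ht] at h1
  have h2 : 0 < (Real.pi / t) ^ ((d : ℝ) / 2) :=
    Real.rpow_pos_of_pos (div_pos Real.pi_pos ht) _
  exact h2.ne' h1

lemma dist_ge {x y : R d} {Λ a : ℝ} (ha : 0 ≤ a) (hx : x ∈ Bx d (Λ - a)) (hy : y ∉ Bx d Λ) :
    a ^ 2 ≤ dist x y ^ 2 := by
  have h1 : ∃ k, Λ < |y k| := by
    by_contra h
    push Not at h
    exact hy h
  obtain ⟨k, hk⟩ := h1
  have h2 : |x k| ≤ Λ - a := hx k
  have h3 : a ≤ |x k - y k| := by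
    have := abs_sub_abs_le_abs_sub (y k) (x k)
    rw [abs_sub_comm] at this
    linarith
  have h4 : |x k - y k| ≤ dist x y := by
    rw [dist_eq_norm]
    exact EuclideanSpace.norm_eq (x - y) ▸ by
      rw [← Real.sqrt_sq (abs_nonneg (x k - y k))]
      refine Real.sqrt_le_sqrt ?_
      rw [← Real.norm_eq_abs]
      exact Finset.single_le_sum (f := fun i => ‖(x - y) i‖ ^ 2) (fun i _ => by positivity)
        (Finset.mem_univ k)
  exact pow_le_pow_left₀ ha (h3.trans h4) 2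

/-- the inner integral -/
noncomputable def gI (d : ℕ) (Λ t : ℝ) (x : R d) : ℝ :=
  ∫ y in Bx d Λ, Real.exp (-(t * dist x y ^ 2))

lemma gI_nonneg (Λ t : ℝ) (x : R d) : 0 ≤ gI d Λ t x :=
  integral_nonneg fun _ => (Real.exp_pos _).le

lemma gI_le {Λ t : ℝ} (ht : 0 < t) (x : R d) : gI d Λ t x ≤ (Real.pi / t) ^ ((d : ℝ) / 2) := by
  rw [← integral_gauss ht x]
  exact setIntegral_le_integral (integrable_gauss ht x)
    (Eventually.of_forall fun _ => (Real.exp_pos _).le)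

lemma gI_ge {Λ t a : ℝ} (ht : 0 < t) (ha : 0 ≤ a) {x : R d} (hx : x ∈ Bx d (Λ - a)) :
    (Real.pi / t) ^ ((d : ℝ) / 2) * (1 - 2 ^ ((d : ℝ) / 2) * Real.exp (-(t / 2 * a ^ 2))) ≤
      gI d Λ t x := by
  have ht2 : 0 < t / 2 := by positivity
  have h1 : (∫ y : R d, (Real.exp (-(t * dist x y ^ 2)) -
      Real.exp (-(t / 2 * a ^ 2)) * Real.exp (-(t / 2 * dist x y ^ 2)))) ≤ gI d Λ t x := by
    unfold gI
    rw [← integral_indicator (measurableSet_bx Λ)]
    refine integral_mono ((integrable_gauss ht x).sub ((integrable_gauss ht2 x).const_mul _))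
      ((integrable_gauss ht x).indicator (measurableSet_bx Λ)) fun y => ?_
    by_cases hy : y ∈ Bx d Λ
    · simp only [Set.indicator_of_mem hy]
      have : 0 ≤ Real.exp (-(t / 2 * a ^ 2)) * Real.exp (-(t / 2 * dist x y ^ 2)) := by positivity
      linarith
    · simp only [Set.indicator_of_notMem hy]
      have h2 := dist_ge ha hx hy
      have h3 : Real.exp (-(t * dist x y ^ 2)) =
          Real.exp (-(t / 2 * dist x y ^ 2)) * Real.exp (-(t / 2 * dist x y ^ 2)) := by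
        rw [← Real.exp_add]; congr 1; ring
      have h4 : Real.exp (-(t / 2 * dist x y ^ 2)) ≤ Real.exp (-(t / 2 * a ^ 2)) :=
        Real.exp_le_exp.2 (by nlinarith [mul_le_mul_of_nonneg_left h2 ht2.le])
      rw [h3]
      have h5 := mul_le_mul_of_nonneg_right h4 (Real.exp_pos (-(t / 2 * dist x y ^ 2))).le
      linarith
  rw [integral_sub (integrable_gauss ht x) ((integrable_gauss ht2 x).const_mul _),
    integral_const_mul, integral_gauss ht, integral_gauss ht2] at h1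
  refine le_trans (le_of_eq ?_) h1
  have h6 : Real.pi / (t / 2) = 2 * (Real.pi / t) := by field_simp
  rw [h6, Real.mul_rpow (by norm_num) (div_pos Real.pi_pos ht).le]
  ring

lemma continuous_kernel (t : ℝ) :
    Continuous (Function.uncurry fun x y : R d => Real.exp (-(t * dist x y ^ 2))) := by
  unfold Function.uncurry
  fun_prop

lemma gI_meas (Λ t : ℝ) : StronglyMeasurable (gI d Λ t) :=
  (continuous_kernel t).stronglyMeasurable.integral_prod_right

lemma gI_int {Λ Λ' t : ℝ} (ht : 0 < t) : IntegrableOn (gI d Λ t) (Bx d Λ') := by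
  refine Measure.integrableOn_of_bounded (volume_bx_ne_top Λ') (gI_meas Λ t).aestronglyMeasurable
    (M := (Real.pi / t) ^ ((d : ℝ) / 2)) (Eventually.of_forall fun x => ?_)
  rw [Real.norm_of_nonneg (gI_nonneg _ _ _)]
  exact gI_le ht x

lemma outer_ge {Λ t a : ℝ} (ht : 0 < t) (ha : 0 ≤ a) (haΛ : a ≤ Λ) :
    (2 * (Λ - a)) ^ d * ((Real.pi / t) ^ ((d : ℝ) / 2) *
      (1 - 2 ^ ((d : ℝ) / 2) * Real.exp (-(t / 2 * a ^ 2)))) ≤ ∫ x in Bx d Λ, gI d Λ t x := by
  have hsub : Bx d (Λ - a) ⊆ Bx d Λ := fun x hx k => (hx k).trans (by linarith)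
  have h1 : ∫ x in Bx d (Λ - a), gI d Λ t x ≤ ∫ x in Bx d Λ, gI d Λ t x :=
    setIntegral_mono_set (gI_int ht) (Eventually.of_forall fun x => gI_nonneg _ _ _)
      hsub.eventuallyLE
  refine le_trans ?_ h1
  have h2 : ∫ _x in Bx d (Λ - a), ((Real.pi / t) ^ ((d : ℝ) / 2) *
      (1 - 2 ^ ((d : ℝ) / 2) * Real.exp (-(t / 2 * a ^ 2)))) ≤ ∫ x in Bx d (Λ - a), gI d Λ t x := by
    refine setIntegral_mono_on ?_ (gI_int ht) (measurableSet_bx _) fun x hx => gI_ge ht ha hx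
    exact integrableOn_const (volume_bx_ne_top _)
  rw [setIntegral_const, volume_real_bx (by linarith), smul_eq_mul] at h2
  exact h2

end BoxG

open BoxG in
theorem box_gauss (hd : 1 ≤ d) (δ : ℝ) (hδ : 0 < δ) : ∃ Λ₀ : ℝ, 1 ≤ Λ₀ ∧ ∀ Λ : ℝ, Λ₀ ≤ Λ →
    ∀ t : ℝ, 1 ≤ t → (1 - δ) * (2 * Λ) ^ d * (Real.pi / t) ^ ((d : ℝ) / 2) ≤
      ∫ x in Bx d Λ, ∫ y in Bx d Λ, Real.exp (-(t * dist x y ^ 2)) := by
  rcases le_or_gt 1 δ with h1 | h1
  · refine ⟨1, le_rfl, fun Λ hΛ t ht => ?_⟩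
    have hpos : 0 ≤ ∫ x in Bx d Λ, ∫ y in Bx d Λ, Real.exp (-(t * dist x y ^ 2)) :=
      integral_nonneg fun x => integral_nonneg fun y => (Real.exp_pos _).le
    refine le_trans ?_ hpos
    have h2 : 0 ≤ (2 * Λ) ^ d := by positivity
    have h3 : 0 ≤ (Real.pi / t) ^ ((d : ℝ) / 2) :=
      Real.rpow_nonneg (div_nonneg Real.pi_pos.le (by linarith)) _
    have h4 : (1 - δ) * (2 * Λ) ^ d ≤ 0 := mul_nonpos_of_nonpos_of_nonneg (by linarith) h2
    exact mul_nonpos_of_nonpos_of_nonneg h4 h3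
  -- choice of `a`
  have hlim : Tendsto (fun a : ℝ => (2:ℝ) ^ ((d : ℝ) / 2) * Real.exp (-(1 / 2 * a ^ 2))) atTop
      (𝓝 (2 ^ ((d : ℝ) / 2) * 0)) := by
    refine Tendsto.const_mul _ ?_
    refine Real.tendsto_exp_neg_atTop_nhds_zero.comp ?_
    exact (tendsto_pow_atTop (by norm_num)).const_mul_atTop (by norm_num)
  rw [mul_zero] at hlim
  obtain ⟨a, ha0, ha⟩ := ((eventually_ge_atTop (0:ℝ)).and
    (hlim.eventually (gt_mem_nhds (show (0:ℝ) < δ / 2 by positivity)))).exists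
  have hd0 : (0:ℝ) < d := by exact_mod_cast (show 0 < d by omega)
  set Λ₀ : ℝ := max 1 (max a (d * a * 2 / δ)) with hΛ₀
  refine ⟨Λ₀, le_max_left _ _, fun Λ hΛ t ht => ?_⟩
  have hΛ1 : 1 ≤ Λ := (le_max_left _ _).trans hΛ
  have hΛa : a ≤ Λ := (le_max_left _ _).trans ((le_max_right _ _).trans hΛ)
  have hΛd : d * a * 2 / δ ≤ Λ := (le_max_right _ _).trans ((le_max_right _ _).trans hΛ)
  have ht0 : 0 < t := by linarith
  refine le_trans ?_ (outer_ge ht0 ha0 hΛa)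
  have hp : 0 ≤ (Real.pi / t) ^ ((d : ℝ) / 2) :=
    Real.rpow_nonneg (div_nonneg Real.pi_pos.le (by linarith)) _
  -- Bernoulli
  have hb : 1 - δ / 2 ≤ ((Λ - a) / Λ) ^ d := by
    have h2 : (Λ - a) / Λ = 1 + -(a / Λ) := by field_simp; ring
    have h3 : a / Λ ≤ 1 := (div_le_one (by linarith)).2 hΛa
    have h4 := one_add_mul_le_pow (show (-2:ℝ) ≤ -(a / Λ) by linarith) d
    rw [h2]
    refine le_trans ?_ h4
    have h5 : d * (a / Λ) ≤ δ / 2 := by
      rw [← mul_div_assoc, div_le_iff₀ (by linarith)]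
      rw [div_le_iff₀ hδ] at hΛd
      nlinarith
    linarith
  have hvol : (1 - δ / 2) * (2 * Λ) ^ d ≤ (2 * (Λ - a)) ^ d := by
    have h2 : (2 * (Λ - a)) ^ d = ((Λ - a) / Λ) ^ d * (2 * Λ) ^ d := by
      rw [← mul_pow]; congr 1; field_simp
    rw [h2]
    exact mul_le_mul_of_nonneg_right hb (by positivity)
  have he : 1 - δ / 2 ≤ 1 - 2 ^ ((d : ℝ) / 2) * Real.exp (-(t / 2 * a ^ 2)) := by
    have h2 : Real.exp (-(t / 2 * a ^ 2)) ≤ Real.exp (-(1 / 2 * a ^ 2)) :=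
      Real.exp_le_exp.2 (by nlinarith [sq_nonneg a])
    have h3 : (0:ℝ) ≤ 2 ^ ((d : ℝ) / 2) := Real.rpow_nonneg (by norm_num) _
    have := mul_le_mul_of_nonneg_left h2 h3
    linarith
  have hx0 : 0 ≤ 1 - δ / 2 := by linarith
  have hw : 0 ≤ (2 * Λ) ^ d := by positivity
  calc (1 - δ) * (2 * Λ) ^ d * (Real.pi / t) ^ ((d : ℝ) / 2)
      ≤ ((1 - δ / 2) * (1 - δ / 2)) * (2 * Λ) ^ d * (Real.pi / t) ^ ((d : ℝ) / 2) := by
        refine mul_le_mul_of_nonneg_right (mul_le_mul_of_nonneg_right ?_ hw) hp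
        nlinarith [sq_nonneg δ]
    _ = ((1 - δ / 2) * (2 * Λ) ^ d) * ((Real.pi / t) ^ ((d : ℝ) / 2) * (1 - δ / 2)) := by ring
    _ ≤ (2 * (Λ - a)) ^ d * ((Real.pi / t) ^ ((d : ℝ) / 2) *
        (1 - 2 ^ ((d : ℝ) / 2) * Real.exp (-(t / 2 * a ^ 2)))) := by
        refine mul_le_mul hvol (mul_le_mul_of_nonneg_left he hp) (mul_nonneg hp hx0) ?_
        exact pow_nonneg (by linarith) _

end Helper23.Riesz
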