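import Mathlib

/-!
# Riesz energy on spheres: basic definitions

Common definitions for the proof of the existence of the second term in the
asymptotics of the optimal Riesz energy on spheres.
-/

set_option autoImplicit false
open MeasureTheory Set Filter Topology
open scoped ENNReal NNReal

namespace Helper23.Riesz

/-- the ambient Euclidean space `ℝ^{d+1}` -/
abbrev E (d : ℕ) : Type := EuclideanSpace ℝ (Fin (d+1))

/-- the unit sphere `S^d` -/
abbrev S (d : ℕ) : Type := Metric.sphere (0 : EuclideanSpace ℝ (Fin (d+1))) 1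

/-- the normalised surface measure -/
noncomputable def sig (d : ℕ) : Measure (S d) :=
  ((volume : Measure (E d)).toSphere Set.univ)⁻¹ • (volume : Measure (E d)).toSphere

/-- linear isometries act on the sphere -/
noncomputable def rot {d : ℕ} (g : E d ≃ₗᵢ[ℝ] E d) (x : S d) : S d :=
  ⟨g x, by simp⟩

/-- the Riesz kernel `|x - y|^{-s}` (with value `0` on the diagonal when `s ≠ 0`) -/
noncomputable def K (s : ℝ) {d : ℕ} (x y : S d) : ℝ := (dist x y) ^ (-s)

/-- double average over the sphere -/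
noncomputable def avg2 {d : ℕ} (f : S d → S d → ℝ) : ℝ :=
  ∫ x, ∫ y, f x y ∂(sig d) ∂(sig d)

/-- the continuous energy -/
noncomputable def V (s : ℝ) (d : ℕ) : ℝ := avg2 (fun x y : S d => K s x y)

/-- energy of a finite set (ordered pairs) -/
noncomputable def en (s : ℝ) {d : ℕ} (Y : Finset (S d)) : ℝ :=
  open Classical in ∑ x ∈ Y, ∑ y ∈ Y.erase x, K s x y

/-- the minimal energy of `N` distinct points -/
noncomputable def Emin (s : ℝ) (d N : ℕ) : ℝ :=
  sInf {e : ℝ | ∃ Y : Finset (S d), Y.card = N ∧ e = en s Y}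

lemma K_nonneg (s : ℝ) {d : ℕ} (x y : S d) : 0 ≤ K s x y := by
  unfold K; positivity

lemma K_symm (s : ℝ) {d : ℕ} (x y : S d) : K s x y = K s y x := by
  unfold K; rw [dist_comm]

lemma K_self {s : ℝ} (hs : s ≠ 0) {d : ℕ} (x : S d) : K s x x = 0 := by
  unfold K; rw [dist_self, Real.zero_rpow (by simpa using hs)]

lemma measurable_K (s : ℝ) {d : ℕ} : Measurable (fun p : S d × S d => K s p.1 p.2) := by
  unfold K
  exact (measurable_dist).pow_const _

lemma en_nonneg (s : ℝ) {d : ℕ} (Y : Finset (S d)) : 0 ≤ en s Y := by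
  unfold en
  exact Finset.sum_nonneg fun x _ => Finset.sum_nonneg fun y _ => K_nonneg s x y

lemma en_eq {s : ℝ} (hs : s ≠ 0) {d : ℕ} (Y : Finset (S d)) :
    en s Y = ∑ x ∈ Y, ∑ y ∈ Y, K s x y := by
  classical
  unfold en
  refine Finset.sum_congr rfl fun x hx => ?_
  rw [← Finset.sum_erase_add _ _ hx, K_self hs, add_zero]

lemma Emin_le (s : ℝ) {d : ℕ} (Y : Finset (S d)) : Emin s d Y.card ≤ en s Y := by
  unfold Emin
  exact csInf_le ⟨0, by rintro e ⟨Y, -, rfl⟩; exact en_nonneg s Y⟩ ⟨Y, rfl, rfl⟩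

lemma dist_le_two {d : ℕ} (x y : S d) : dist x y ≤ 2 := by
  have h1 : ‖(x : E d)‖ = 1 := by simp
  have h2 : ‖(y : E d)‖ = 1 := by simp
  rw [Subtype.dist_eq, dist_eq_norm]
  calc ‖(x : E d) - y‖ ≤ ‖(x : E d)‖ + ‖(y : E d)‖ := norm_sub_le _ _
    _ = 2 := by rw [h1, h2]; norm_num

end Helper23.Riesz
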