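import Pool.Agent.Helper94.Riesz.Defs2
import Pool.Agent.Helper69.Riesz.StereoC

/-!
# Definitions for the range `-2 < s < 0`
-/

set_option autoImplicit false
open MeasureTheory Set Filter Topology
open scoped ENNReal NNReal

namespace Helper23.Riesz

variable {s : ℝ} {d : ℕ}

/-- mutual energy with the kernel `|x-y|^{-s}`, `s < 0`, on any metric space -/
noncomputable def Im (s : ℝ) {X : Type*} [PseudoMetricSpace X] [MeasurableSpace X]
    (μ ν : Measure X) : ℝ := ∫ x, ∫ y, (dist x y) ^ (-s) ∂ν ∂μ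

/-- the energy gap (nonnegative for `-2 < s < 0`) -/
noncomputable def gap (s : ℝ) (d N : ℕ) : ℝ := (N : ℝ) ^ 2 * V s d - Emax s d N

/-- uniform probability on the half-open cube of side `M` -/
noncomputable def unifM (d : ℕ) (M : ℝ) : Measure (R d) :=
  ENNReal.ofReal (M ^ (-(d:ℝ))) • (volume : Measure (R d)).restrict (cubo 0 M)

/-- the measure `∑ w_i δ_{v_i} + r * uniform` -/
noncomputable def muM {d n : ℕ} (M : ℝ) (v : Fin n → R d) (w : Fin n → ℝ) (r : ℝ) :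
    Measure (R d) :=
  ∑ i, ENNReal.ofReal (w i) • Measure.dirac (v i) + ENNReal.ofReal r • unifM d M

/-- the output of the source side: a random cell of side `M`, with cost `Lam` per unit volume -/
def HasCell (s : ℝ) (d : ℕ) (Lam ε : ℝ) : Prop :=
  ∃ (M : ℝ) (n : ℕ) (O : Type) (_ : MeasurableSpace O) (P : Measure O)
    (v : O → Fin n → R d) (w : O → Fin n → ℝ) (r : O → ℝ) (b : ℝ) (mbar : Measure (R d)),
    1 / ε ≤ M ∧ IsProbabilityMeasure P ∧ (∀ i, Measurable fun o => v o i) ∧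
    (∀ i, Measurable fun o => w o i) ∧ Measurable r ∧
    (∀ o i, 0 ≤ w o i ∧ w o i ≤ 1) ∧ (∀ o, 0 ≤ r o) ∧
    (∀ o i, w o i ≠ 0 → v o i ∈ cubo 0 M) ∧
    (∀ o, ∑ i, w o i + r o = b) ∧ |b - M ^ d| ≤ ε * M ^ d ∧
    (∀ A : Set (R d), MeasurableSet A → mbar A = ∫⁻ o, muM M (v o) (w o) (r o) A ∂P) ∧
    mbar ≤ ENNReal.ofReal (1 + ε) • (volume : Measure (R d)).restrict (cubo 0 M) ∧
    (∫ o, ((∑ i, if w o i < 1 then w o i else 0) + r o) ∂P ≤ ε * M ^ d) ∧
    Im s mbar mbar - ∫ o, Im s (muM M (v o) (w o) (r o)) (muM M (v o) (w o) (r o)) ∂P ≤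
      (Lam + ε) * M ^ d

end Helper23.Riesz
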