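import Pool.Agent.Helper23.Riesz.Defs

/-!
# Selection lemma

`IsPiece s β δ`: a random finite set of mean measure `β`, whose expected energy is at most
`δ + Q(β, β)`, in the derandomised form which is needed for combining pieces.
-/

set_option autoImplicit false
open MeasureTheory Set Filter Topology
open scoped ENNReal NNReal

namespace Helper23.Riesz

/-- mutual energy -/
noncomputable def Q (s : ℝ) {d : ℕ} (β γ : Measure (S d)) : ℝ := ∫ x, ∫ y, K s x y ∂γ ∂β

/-- standing facts about `K` and the measure `sig` -/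
structure KFacts (s : ℝ) (d : ℕ) : Prop where
  prob : IsProbabilityMeasure (sig d)
  s0 : s ≠ 0
  int : ∀ x : S d, Integrable (fun y => K s x y) (sig d)
  pot : ∀ x : S d, ∫ y, K s x y ∂(sig d) = V s d
  atom : ∀ x : S d, sig d {x} = 0

variable {s : ℝ} {d : ℕ}

lemma KFacts.V_nonneg (h : KFacts s d) : 0 ≤ V s d := by
  have x : S d := ⟨EuclideanSpace.single 0 (1:ℝ), by simp⟩
  rw [← h.pot x]
  exact integral_nonneg fun y => K_nonneg s x y

/-- dominated measures -/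
def Dom {d : ℕ} (c : ℝ≥0) (β : Measure (S d)) : Prop := β ≤ c • sig d

lemma Dom.finite (h : KFacts s d) {c : ℝ≥0} {β : Measure (S d)} (hβ : Dom c β) :
    IsFiniteMeasure β := by
  haveI := h.prob
  refine ⟨lt_of_le_of_lt (hβ univ) ?_⟩
  simp

lemma Dom.add {c₁ c₂ : ℝ≥0} {β₁ β₂ : Measure (S d)} (h₁ : Dom c₁ β₁) (h₂ : Dom c₂ β₂) :
    Dom (c₁ + c₂) (β₁ + β₂) := by
  unfold Dom at *
  rw [add_smul]
  exact add_le_add h₁ h₂

lemma Dom.integrable (h : KFacts s d) {c : ℝ≥0} {β : Measure (S d)} (hβ : Dom c β) (x : S d) :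
    Integrable (fun y => K s x y) β :=
  ((h.int x).smul_measure_nnreal (c := c)).mono_measure hβ

/-- the potential of a dominated measure is bounded -/
lemma Dom.pot_le (h : KFacts s d) {c : ℝ≥0} {β : Measure (S d)} (hβ : Dom c β) (x : S d) :
    ∫ y, K s x y ∂β ≤ c * V s d := by
  calc ∫ y, K s x y ∂β ≤ ∫ y, K s x y ∂(c • sig d) :=
        integral_mono_measure hβ (Eventually.of_forall fun y => K_nonneg s x y)
          ((h.int x).smul_measure_nnreal (c := c))
    _ = c * V s d := by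
        rw [integral_smul_nnreal_measure, h.pot, NNReal.smul_def, smul_eq_mul]

lemma pot_nonneg (β : Measure (S d)) (x : S d) : 0 ≤ ∫ y, K s x y ∂β :=
  integral_nonneg fun y => K_nonneg s x y

lemma measurable_pot (β : Measure (S d)) [SFinite β] : Measurable (fun x => ∫ y, K s x y ∂β) :=
  ((measurable_K s).stronglyMeasurable.integral_prod_right' (ν := β)).measurable

lemma Dom.integrable_pot (h : KFacts s d) {c : ℝ≥0} {β : Measure (S d)} (hβ : Dom c β)
    (γ : Measure (S d)) [IsFiniteMeasure γ] :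
    Integrable (fun x => ∫ y, K s x y ∂β) γ := by
  haveI := hβ.finite h
  refine Integrable.of_bound (C := c * V s d) (measurable_pot β).aestronglyMeasurable
    (Eventually.of_forall fun x => ?_)
  rw [Real.norm_of_nonneg (pot_nonneg β x)]
  exact hβ.pot_le h x

lemma Q_nonneg (β γ : Measure (S d)) : 0 ≤ Q s β γ :=
  integral_nonneg fun x => pot_nonneg γ x

lemma Q_symm (h : KFacts s d) {c₁ c₂ : ℝ≥0} {β γ : Measure (S d)} (hβ : Dom c₁ β)
    (hγ : Dom c₂ γ) : Q s β γ = Q s γ β := by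
  haveI := hβ.finite h
  haveI := hγ.finite h
  unfold Q
  rw [integral_integral_swap]
  · refine integral_congr_ae (Eventually.of_forall fun x => ?_)
    refine integral_congr_ae (Eventually.of_forall fun y => ?_)
    exact K_symm s _ _
  · rw [integrable_prod_iff]
    · refine ⟨Eventually.of_forall fun x => hγ.integrable h x, ?_⟩
      refine (hγ.integrable_pot h β).congr (Eventually.of_forall fun x => ?_)
      refine integral_congr_ae (Eventually.of_forall fun y => ?_)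
      exact (Real.norm_of_nonneg (K_nonneg s x y)).symm
    · exact (measurable_K s).aestronglyMeasurable

lemma Q_add_right (h : KFacts s d) {c₁ c₂ c₃ : ℝ≥0} {β γ₁ γ₂ : Measure (S d)} (hβ : Dom c₁ β)
    (h₁ : Dom c₂ γ₁) (h₂ : Dom c₃ γ₂) : Q s β (γ₁ + γ₂) = Q s β γ₁ + Q s β γ₂ := by
  haveI := hβ.finite h
  unfold Q
  rw [← integral_add (h₁.integrable_pot h β) (h₂.integrable_pot h β)]
  refine integral_congr_ae (Eventually.of_forall fun x => ?_)
  exact integral_add_measure (h₁.integrable h x) (h₂.integrable h x)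

lemma Q_add_left (h : KFacts s d) {c₁ c₂ c₃ : ℝ≥0} {β γ₁ γ₂ : Measure (S d)} (hβ : Dom c₁ β)
    (h₁ : Dom c₂ γ₁) (h₂ : Dom c₃ γ₂) : Q s (γ₁ + γ₂) β = Q s γ₁ β + Q s γ₂ β := by
  haveI := h₁.finite h
  haveI := h₂.finite h
  unfold Q
  exact integral_add_measure (hβ.integrable_pot h γ₁) (hβ.integrable_pot h γ₂)

/-- the piece predicate -/
structure IsPiece (s : ℝ) {d : ℕ} (β : Measure (S d)) (δ : ℝ) : Prop where
  dom : ∃ c : ℝ≥0, Dom c β
  good : ∀ (Z : Finset (S d)) (U : S d → ℝ), Measurable U → Integrable U β →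
    ∃ P : Finset (S d), Disjoint P Z ∧ en s P + ∑ y ∈ P, U y ≤ δ + Q s β β + ∫ y, U y ∂β

lemma IsPiece.mono {β : Measure (S d)} {δ δ' : ℝ} (h : IsPiece s β δ) (hδ : δ ≤ δ') :
    IsPiece s β δ' := by
  refine ⟨h.dom, fun Z U hU hU' => ?_⟩
  obtain ⟨P, hP, h2⟩ := h.good Z U hU hU'
  exact ⟨P, hP, h2.trans (by linarith)⟩

lemma en_union (hs : s ≠ 0) [DecidableEq (S d)] {P₁ P₂ : Finset (S d)} (h : Disjoint P₁ P₂) :
    en s (P₁ ∪ P₂) = en s P₁ + en s P₂ + 2 * ∑ y ∈ P₂, ∑ z ∈ P₁, K s z y := by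
  rw [en_eq hs, en_eq hs, en_eq hs, Finset.sum_union h]
  have h1 : ∀ x : S d, ∑ y ∈ P₁ ∪ P₂, K s x y = ∑ y ∈ P₁, K s x y + ∑ y ∈ P₂, K s x y :=
    fun x => Finset.sum_union h
  simp_rw [h1, Finset.sum_add_distrib]
  have h2 : ∑ x ∈ P₁, ∑ y ∈ P₂, K s x y = ∑ y ∈ P₂, ∑ z ∈ P₁, K s z y := Finset.sum_comm
  have h3 : ∑ x ∈ P₂, ∑ y ∈ P₁, K s x y = ∑ y ∈ P₂, ∑ z ∈ P₁, K s z y :=
    Finset.sum_congr rfl fun x _ => Finset.sum_congr rfl fun y _ => K_symm s x y
  rw [h2, h3]; ring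

lemma en_empty : en s (∅ : Finset (S d)) = 0 := by simp [en]

lemma measurable_K_left (z : S d) : Measurable (fun y => K s z y) := by
  have h1 : Measurable (fun y : S d => dist z y) := (continuous_const.dist continuous_id).measurable
  exact h1.pow_const _

lemma IsPiece.add (h : KFacts s d) {β₁ β₂ : Measure (S d)} {δ₁ δ₂ : ℝ} (h₁ : IsPiece s β₁ δ₁)
    (h₂ : IsPiece s β₂ δ₂) : IsPiece s (β₁ + β₂) (δ₁ + δ₂) := by
  classical
  obtain ⟨c₁, hc₁⟩ := h₁.dom
  obtain ⟨c₂, hc₂⟩ := h₂.dom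
  haveI := hc₁.finite h
  haveI := hc₂.finite h
  have hQ : Q s (β₁ + β₂) (β₁ + β₂) = Q s β₁ β₁ + Q s β₂ β₂ + 2 * Q s β₁ β₂ := by
    rw [Q_add_right h (hc₁.add hc₂) hc₁ hc₂,
      Q_add_left h hc₁ hc₁ hc₂, Q_add_left h hc₂ hc₁ hc₂, Q_symm h hc₂ hc₁]
    ring
  refine ⟨⟨c₁ + c₂, hc₁.add hc₂⟩, fun Z U hU hU' => ?_⟩
  have hU1 : Integrable U β₁ := hU'.mono_measure (Measure.le_add_right le_rfl)
  have hU2 : Integrable U β₂ := hU'.mono_measure (Measure.le_add_left le_rfl)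
  have hUs : ∫ y, U y ∂(β₁ + β₂) = ∫ y, U y ∂β₁ + ∫ y, U y ∂β₂ := integral_add_measure hU1 hU2
  set pot : S d → ℝ := fun y => ∫ w, K s y w ∂β₂ with hpot
  have hpm : Measurable pot := measurable_pot β₂
  have hpi : Integrable pot β₁ := hc₂.integrable_pot h β₁
  have hQ2 : Q s β₁ β₂ = ∫ y, pot y ∂β₁ := rfl
  obtain ⟨P₁, hP₁, he₁⟩ := h₁.good Z (fun y => U y + 2 * pot y)
    (hU.add (hpm.const_mul 2)) (hU1.add (hpi.const_mul 2))
  set F : S d → ℝ := fun y => ∑ z ∈ P₁, K s z y with hF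
  have hFm : Measurable F := Finset.measurable_sum _ fun z _ => measurable_K_left z
  have hFi : Integrable F β₂ := integrable_finsetSum _ fun z _ => hc₂.integrable h z
  have hFs : ∫ y, F y ∂β₂ = ∑ z ∈ P₁, pot z := by
    rw [hF, integral_finsetSum _ (fun z _ => hc₂.integrable h z)]
  obtain ⟨P₂, hP₂, he₂⟩ := h₂.good (Z ∪ P₁) (fun y => U y + 2 * F y)
    (hU.add (hFm.const_mul 2)) (hU2.add (hFi.const_mul 2))
  rw [Finset.disjoint_union_right] at hP₂
  refine ⟨P₁ ∪ P₂, Finset.disjoint_union_left.2 ⟨hP₁, hP₂.1⟩, ?_⟩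
  rw [en_union h.s0 hP₂.2.symm, Finset.sum_union hP₂.2.symm, hQ, hUs]
  rw [Finset.sum_add_distrib, ← Finset.mul_sum] at he₁ he₂
  rw [integral_add hU1 (hpi.const_mul 2), integral_const_mul] at he₁
  rw [integral_add hU2 (hFi.const_mul 2), integral_const_mul, hFs] at he₂
  rw [hQ2]
  have e3 : ∑ y ∈ P₂, ∑ z ∈ P₁, K s z y = ∑ y ∈ P₂, F y := rfl
  rw [e3]
  linarith

lemma Dom.zero : Dom 0 (0 : Measure (S d)) := by
  unfold Dom; simp

lemma IsPiece.zero : IsPiece s (0 : Measure (S d)) 0 := by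
  refine ⟨⟨0, Dom.zero⟩, fun Z U _ _ => ⟨∅, by simp, ?_⟩⟩
  simp [en_empty, Q]

lemma IsPiece.sum (h : KFacts s d) {ι : Type*} (I : Finset ι) (β : ι → Measure (S d)) (δ : ι → ℝ)
    (hp : ∀ i ∈ I, IsPiece s (β i) (δ i)) : IsPiece s (∑ i ∈ I, β i) (∑ i ∈ I, δ i) := by
  classical
  induction I using Finset.induction_on with
  | empty => simpa using IsPiece.zero
  | insert i I hi ih =>
    rw [Finset.sum_insert hi, Finset.sum_insert hi]
    exact (hp i (Finset.mem_insert_self _ _)).add h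
      (ih fun j hj => hp j (Finset.mem_insert_of_mem hj))

/-- one random point -/
lemma IsPiece.point (h : KFacts s d) {β : Measure (S d)} [IsProbabilityMeasure β] {c : ℝ≥0}
    (hβ : Dom c β) : IsPiece s β 0 := by
  refine ⟨⟨c, hβ⟩, fun Z U hU hU' => ?_⟩
  have h1 : (sig d) (Z : Set (S d)) = 0 := by
    rw [← Set.biUnion_of_singleton (Z : Set (S d))]
    exact (measure_biUnion_null_iff (Finset.countable_toSet Z)).2 fun x _ => h.atom x
  have hnull : β (Z : Set (S d)) = 0 := by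
    refine le_antisymm ((hβ _).trans ?_) bot_le
    simp [h1]
  obtain ⟨y, hy, hy2⟩ := exists_notMem_null_le_integral hU' hnull
  refine ⟨{y}, by simpa using hy, ?_⟩
  have := Q_nonneg (s := s) β β
  simp [en]
  linarith

end Helper23.Riesz
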