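import Pool.Agent.Helper23.Riesz.Sel
import Pool.Agent.Helper27.Riesz.Haar

/-!
# Transfer of a configuration to many small copies of a box
-/

set_option autoImplicit false
open MeasureTheory Set Filter Topology
open scoped ENNReal NNReal

namespace Helper23.Riesz

variable {s : ℝ} {d : ℕ}

lemma rot_inj (g : E d ≃ₗᵢ[ℝ] E d) : Function.Injective (rot g) := by
  intro x y hxy
  have h1 := congrArg (fun z : S d => (z : E d)) hxy
  exact Subtype.ext (g.injective h1)

lemma K_rot (g : E d ≃ₗᵢ[ℝ] E d) (x y : S d) : K s (rot g x) (rot g y) = K s x y := by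
  unfold K; rw [rot_dist]

/-- splitting a dominated measure in unit random points and a rest of mass at most one -/
lemma split_points (h : KFacts s d) {c : ℝ≥0} {τ : Measure (S d)} (hτ : Dom c τ) :
    ∃ ρ ψ : Measure (S d), ρ + ψ = τ ∧ IsPiece s ρ 0 ∧ ψ univ ≤ 1 := by
  haveI := hτ.finite h
  rcases lt_or_ge (τ univ) 1 with h1 | h1
  · exact ⟨0, τ, by simp, IsPiece.zero, h1.le⟩
  · set M : ℝ≥0 := (τ univ).toNNReal with hM
    have hMτ : (M : ℝ≥0∞) = τ univ := ENNReal.coe_toNNReal (measure_ne_top τ univ)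
    have hM1 : 1 ≤ M := by
      rw [← hMτ] at h1; exact_mod_cast h1
    have hM0 : M ≠ 0 := (lt_of_lt_of_le one_pos hM1).ne'
    set m : ℕ := ⌊M⌋₊ with hm
    have hmM : (m : ℝ≥0) ≤ M := Nat.floor_le bot_le
    have hMm : M ≤ m + 1 := (Nat.lt_floor_add_one M).le
    set b : Measure (S d) := M⁻¹ • τ with hb
    have hbp : IsProbabilityMeasure b := by
      refine ⟨?_⟩
      rw [hb, Measure.smul_apply, ← hMτ, ENNReal.smul_def, smul_eq_mul, ← ENNReal.coe_mul,
        inv_mul_cancel₀ hM0, ENNReal.coe_one]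
    have hbd : Dom (M⁻¹ * c) b := by
      unfold Dom at *
      intro A
      have h2 := hτ A
      rw [Measure.smul_apply, Measure.smul_apply, mul_smul]
      rw [Measure.smul_apply] at h2
      simp only [ENNReal.smul_def, smul_eq_mul] at h2 ⊢
      gcongr
    refine ⟨(m : ℝ≥0) • b, (M - m) • b, ?_, ?_, ?_⟩
    · rw [← add_smul, add_tsub_cancel_of_le hmM, hb, smul_smul, mul_inv_cancel₀ hM0, one_smul]
    · have h2 := IsPiece.sum (s := s) h (Finset.range m) (fun _ => b) (fun _ => 0)
        (fun _ _ => IsPiece.point h hbd)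
      simp only [Finset.sum_const, Finset.card_range, smul_zero] at h2
      have h3 : (m : ℝ≥0) • b = m • b := by
        rw [Nat.cast_smul_eq_nsmul]
      rwa [h3]
    · rw [Measure.smul_apply, measure_univ, ENNReal.smul_def, smul_eq_mul, mul_one]
      exact_mod_cast tsub_le_iff_left.2 hMm

/-- from a piece to a finite set -/
lemma piece_bound (h : KFacts s d) {ρ ψ : Measure (S d)} {δ : ℝ} (hρ : IsPiece s ρ δ) (N : ℕ)
    (hsum : ρ + ψ = (N : ℝ≥0) • sig d) (hψ : ψ univ ≤ 1) :
    ∃ Y : Finset (S d), en s Y - 2 * N * Y.card * V s d + (N : ℝ) ^ 2 * V s d ≤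
      δ + N * V s d := by
  haveI := h.prob
  have dρ : Dom (N : ℝ≥0) ρ := by
    unfold Dom; rw [← hsum]; exact Measure.le_add_right le_rfl
  have dψ : Dom (N : ℝ≥0) ψ := by
    unfold Dom; rw [← hsum]; exact Measure.le_add_left le_rfl
  haveI := dρ.finite h
  haveI := dψ.finite h
  have hV := h.V_nonneg
  have e0 : ∀ γ : Measure (S d), ∀ c : ℝ≥0, Dom c γ → Q s γ ρ + Q s γ ψ = N * V s d * γ.real univ := by
    intro γ c hγ
    haveI := hγ.finite h
    rw [← Q_add_right h hγ dρ dψ, hsum]
    unfold Q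
    have : ∀ x : S d, ∫ y, K s x y ∂((N : ℝ≥0) • sig d) = N * V s d := fun x => by
      rw [integral_smul_nnreal_measure, h.pot, NNReal.smul_def, smul_eq_mul]; simp
    simp_rw [this]
    rw [integral_const, smul_eq_mul, mul_comm]
  have e1 := e0 ρ _ dρ
  have e2 := e0 ψ _ dψ
  have e3 := Q_symm h dρ dψ
  have e4 := Q_nonneg (s := s) ψ ρ
  have e5 : ρ.real univ + ψ.real univ = N := by
    have h9 : (ρ + ψ) univ = ((N : ℝ≥0) • sig d) univ := by rw [hsum]
    rw [Measure.add_apply, Measure.smul_apply, measure_univ (μ := sig d)] at h9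
    have h10 := congrArg ENNReal.toReal h9
    rw [ENNReal.toReal_add (measure_ne_top _ _) (measure_ne_top _ _)] at h10
    rw [Measure.real, Measure.real, h10]
    simp [ENNReal.smul_def]
  have e6 : ψ.real univ ≤ 1 := by
    have := ENNReal.toReal_mono ENNReal.one_ne_top hψ
    simpa [Measure.real] using this
  have e7 : 0 ≤ ψ.real univ := measureReal_nonneg
  obtain ⟨Y, -, hY⟩ := hρ.good ∅ (fun _ => -(2 * N * V s d)) measurable_const
    (integrable_const _)
  refine ⟨Y, ?_⟩
  rw [integral_const, Finset.sum_const, nsmul_eq_mul, smul_eq_mul] at hY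
  have e8 : ρ.real univ = N - ψ.real univ := by linarith
  rw [e8] at hY e1
  have hN : (0:ℝ) ≤ N := by positivity
  nlinarith [mul_nonneg hN hV, mul_le_mul_of_nonneg_left e6 (mul_nonneg hN hV)]

/-- random rotations -/
structure RotSys (d : ℕ) where
  Ω : Type
  [mΩ : MeasurableSpace Ω]
  μ : Measure Ω
  [pr : IsProbabilityMeasure μ]
  a : Ω → (E d ≃ₗᵢ[ℝ] E d)
  meas : Measurable (fun p : Ω × S d => rot (a p.1) p.2)
  law : ∀ x : S d, μ.map (fun ω => rot (a ω) x) = sig d

attribute [instance] RotSys.mΩ RotSys.pr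

lemma nonempty_rotSys (d : ℕ) : Nonempty (RotSys d) := by
  obtain ⟨Ω, mΩ, μ, a, h1, h2, h3⟩ := exists_haar d
  exact ⟨{ Ω := Ω, μ := μ, a := a, meas := h2, law := h3 }⟩

namespace RotSys

variable (r : RotSys d)

lemma meas_pt (x : S d) : Measurable (fun ω => rot (r.a ω) x) :=
  r.meas.comp (measurable_id.prodMk measurable_const)

lemma integral_law (f : S d → ℝ) (hf : Measurable f) (x : S d) :
    ∫ ω, f (rot (r.a ω) x) ∂r.μ = ∫ y, f y ∂(sig d) := by
  rw [← r.law x, integral_map (r.meas_pt x).aemeasurable hf.aestronglyMeasurable]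

lemma integrable_law (f : S d → ℝ) (hf : Measurable f) (hi : Integrable f (sig d)) (x : S d) :
    Integrable (fun ω => f (rot (r.a ω) x)) r.μ := by
  rw [← r.law x] at hi
  exact (integrable_map_measure hf.aestronglyMeasurable (r.meas_pt x).aemeasurable).1 hi

end RotSys

open Classical in
/-- the expected energy of the transferred random points -/
noncomputable def kap (s : ℝ) (r : RotSys d) (X : Finset (S d)) (B : Set (S d))
    (φ : S d → S d) (ω : r.Ω) : ℝ :=
  ∑ x ∈ X, ∑ y ∈ X, if rot (r.a ω) x ∈ B ∧ rot (r.a ω) y ∈ B then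
    K s (φ (rot (r.a ω) x)) (φ (rot (r.a ω) y)) else 0

lemma integrable_kap_term (hs : 0 < s) (r : RotSys d) {B : Set (S d)} (hB : MeasurableSet B)
    {φ : S d → S d} (hφ : Measurable φ) {t : ℝ} (ht : 0 < t)
    (hlow : ∀ x ∈ B, ∀ y ∈ B, t * dist x y ≤ dist (φ x) (φ y)) (x y : S d) [DecidableEq (S d)]
    [∀ ω, Decidable (rot (r.a ω) x ∈ B ∧ rot (r.a ω) y ∈ B)] :
    Integrable (fun ω => if rot (r.a ω) x ∈ B ∧ rot (r.a ω) y ∈ B then
      K s (φ (rot (r.a ω) x)) (φ (rot (r.a ω) y)) else 0) r.μ := by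
  have hm : Measurable (fun ω => if rot (r.a ω) x ∈ B ∧ rot (r.a ω) y ∈ B then
      K s (φ (rot (r.a ω) x)) (φ (rot (r.a ω) y)) else 0) := by
    have h1 : MeasurableSet {ω | rot (r.a ω) x ∈ B ∧ rot (r.a ω) y ∈ B} :=
      (r.meas_pt x hB).inter (r.meas_pt y hB)
    refine Measurable.ite h1 ?_ measurable_const
    have h2 : Measurable (fun ω => dist (φ (rot (r.a ω) x)) (φ (rot (r.a ω) y))) :=
      (hφ.comp (r.meas_pt x)).dist (hφ.comp (r.meas_pt y))
    exact h2.pow_const _
  refine Integrable.of_bound (C := (t * dist x y) ^ (-s)) hm.aestronglyMeasurable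
    (Eventually.of_forall fun ω => ?_)
  by_cases h : rot (r.a ω) x ∈ B ∧ rot (r.a ω) y ∈ B
  · rw [if_pos h, Real.norm_of_nonneg (K_nonneg _ _ _)]
    have h3 := hlow _ h.1 _ h.2
    rw [rot_dist] at h3
    rcases eq_or_lt_of_le (dist_nonneg (x := x) (y := y)) with h4 | h4
    · have h5 : x = y := dist_eq_zero.1 h4.symm
      subst h5
      rw [K_self hs.ne', dist_self, mul_zero, Real.zero_rpow (by linarith)]
    · exact Real.rpow_le_rpow_of_nonpos (mul_pos ht h4) h3 (by linarith)
  · rw [if_neg h, norm_zero]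
    positivity

lemma IsPiece.rotated (h : KFacts s d) (hs : 0 < s) (r : RotSys d) (X : Finset (S d))
    {B : Set (S d)} (hB : MeasurableSet B) {φ : S d → S d} (hφ : Measurable φ) {t : ℝ} (ht : 0 < t)
    (hlow : ∀ x ∈ B, ∀ y ∈ B, t * dist x y ≤ dist (φ x) (φ y)) {c : ℝ≥0}
    (hdom : Dom c (((sig d).restrict B).map φ)) :
    IsPiece s ((X.card : ℝ≥0) • ((sig d).restrict B).map φ)
      (∫ ω, kap s r X B φ ω ∂r.μ - (X.card : ℝ) ^ 2 *
        Q s (((sig d).restrict B).map φ) (((sig d).restrict B).map φ)) := by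
  classical
  have hp := h.prob
  set β : Measure (S d) := ((sig d).restrict B).map φ with hβ
  have hβf : IsFiniteMeasure β := hdom.finite h
  have hdomN : Dom ((X.card : ℝ≥0) * c) ((X.card : ℝ≥0) • β) := by
    intro A
    have h2 := hdom A
    rw [Measure.smul_apply, Measure.smul_apply, mul_smul]
    rw [Measure.smul_apply] at h2
    simp only [ENNReal.smul_def, smul_eq_mul] at h2 ⊢
    gcongr
  refine ⟨⟨_, hdomN⟩, fun Z U hU hU' => ?_⟩
  -- integrals
  have hQN : Q s ((X.card : ℝ≥0) • β) ((X.card : ℝ≥0) • β) = (X.card : ℝ) ^ 2 * Q s β β := by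
    unfold Q
    rw [integral_smul_nnreal_measure]
    simp_rw [integral_smul_nnreal_measure, NNReal.smul_def, smul_eq_mul, integral_const_mul]
    simp; ring
  by_cases hX : X.card = 0
  · rw [Finset.card_eq_zero] at hX
    subst hX
    refine ⟨∅, by simp, ?_⟩
    simp [en_empty, kap, Q]
  have hUβ : Integrable U β := by
    have : Integrable U (((X.card : ℝ≥0)⁻¹) • ((X.card : ℝ≥0) • β)) :=
      hU'.smul_measure_nnreal
    rwa [smul_smul, inv_mul_cancel₀ (by exact_mod_cast hX), one_smul] at this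
  have hUφ : Integrable (fun x => U (φ x)) ((sig d).restrict B) :=
    (integrable_map_measure hU.aestronglyMeasurable hφ.aemeasurable).1 hUβ
  have hind : Integrable (B.indicator (fun x => U (φ x))) (sig d) :=
    (integrable_indicator_iff hB).2 hUφ
  have hindm : Measurable (B.indicator (fun x => U (φ x))) := (hU.comp hφ).indicator hB
  set G : r.Ω → ℝ := fun ω => ∑ x ∈ X, B.indicator (fun x => U (φ x)) (rot (r.a ω) x) with hG
  have hGi : Integrable G r.μ :=
    integrable_finsetSum _ fun x _ => r.integrable_law _ hindm hind x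
  have hGs : ∫ ω, G ω ∂r.μ = ∫ y, U y ∂((X.card : ℝ≥0) • β) := by
    rw [hG, integral_finsetSum _ (fun x _ => r.integrable_law _ hindm hind x)]
    simp_rw [r.integral_law _ hindm]
    rw [Finset.sum_const, nsmul_eq_mul, integral_indicator hB, integral_smul_nnreal_measure, hβ,
      integral_map hφ.aemeasurable hU.aestronglyMeasurable, NNReal.smul_def, smul_eq_mul]
    simp
  have hki : Integrable (fun ω => kap s r X B φ ω) r.μ :=
    integrable_finsetSum _ fun x _ => integrable_finsetSum _ fun y _ =>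
      integrable_kap_term hs r hB hφ ht hlow x y
  -- injectivity of φ on B
  have hinj : ∀ x ∈ B, ∀ y ∈ B, φ x = φ y → x = y := by
    intro x hx y hy hxy
    have h3 := hlow x hx y hy
    rw [hxy, dist_self] at h3
    have h4 : dist x y ≤ 0 := by
      by_contra h5
      have := mul_pos ht (not_le.1 h5)
      linarith
    exact dist_le_zero.1 h4
  -- null set
  set Nul : Set r.Ω := {ω | ∃ x ∈ X, ∃ z ∈ Z, rot (r.a ω) x ∈ B ∧ φ (rot (r.a ω) x) = z} with hNul
  have hnull : r.μ Nul = 0 := by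
    have hsub : Nul ⊆ ⋃ x ∈ X, ⋃ z ∈ Z, {ω | rot (r.a ω) x ∈ B ∧ φ (rot (r.a ω) x) = z} := by
      rintro ω ⟨x, hx, z, hz, h5⟩
      simp only [mem_iUnion]
      exact ⟨x, hx, z, hz, h5⟩
    refine measure_mono_null hsub ?_
    simp_rw [← Finset.mem_coe]
    rw [measure_biUnion_null_iff (Finset.countable_toSet X)]
    intro x _
    rw [measure_biUnion_null_iff (Finset.countable_toSet Z)]
    intro z _
    by_cases hz : ∃ w ∈ B, φ w = z
    · obtain ⟨w, hw, hwz⟩ := hz
      have hsub2 : {ω | rot (r.a ω) x ∈ B ∧ φ (rot (r.a ω) x) = z} ⊆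
          (fun ω => rot (r.a ω) x) ⁻¹' {w} := by
        rintro ω ⟨h6, h7⟩
        exact hinj _ h6 _ hw (h7.trans hwz.symm)
      refine measure_mono_null hsub2 ?_
      rw [← Measure.map_apply (r.meas_pt x) (measurableSet_singleton w), r.law x]
      exact h.atom w
    · have : {ω | rot (r.a ω) x ∈ B ∧ φ (rot (r.a ω) x) = z} = ∅ := by
        ext ω
        simp only [mem_setOf_eq, mem_empty_iff_false, iff_false]
        rintro ⟨h6, h7⟩
        exact hz ⟨_, h6, h7⟩
      rw [this, measure_empty]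
  obtain ⟨ω, hω, hle⟩ := exists_notMem_null_le_integral (hki.add hGi) hnull
  rw [integral_add' hki hGi, hGs] at hle
  refine ⟨(X.filter (fun x => rot (r.a ω) x ∈ B)).image (fun x => φ (rot (r.a ω) x)), ?_, ?_⟩
  · rw [Finset.disjoint_left]
    intro z hz hzZ
    rw [Finset.mem_image] at hz
    obtain ⟨x, hx, rfl⟩ := hz
    rw [Finset.mem_filter] at hx
    exact hω ⟨x, hx.1, _, hzZ, hx.2, rfl⟩
  · have hio : Set.InjOn (fun x => φ (rot (r.a ω) x))
        (X.filter (fun x => rot (r.a ω) x ∈ B) : Set (S d)) := by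
      intro x hx y hy hxy
      simp only [Finset.coe_filter, mem_setOf_eq] at hx hy
      exact rot_inj _ (hinj _ hx.2 _ hy.2 hxy)
    rw [en_eq h.s0, Finset.sum_image hio, Finset.sum_image hio]
    simp_rw [Finset.sum_image hio]
    have e1 : ∑ x ∈ X.filter (fun x => rot (r.a ω) x ∈ B), U (φ (rot (r.a ω) x)) = G ω := by
      rw [hG, Finset.sum_filter]
      rfl
    have e2 : ∑ x ∈ X.filter (fun x => rot (r.a ω) x ∈ B),
        ∑ y ∈ X.filter (fun x => rot (r.a ω) x ∈ B), K s (φ (rot (r.a ω) x)) (φ (rot (r.a ω) y)) =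
        kap s r X B φ ω := by
      unfold kap
      rw [Finset.sum_filter]
      refine Finset.sum_congr rfl fun x _ => ?_
      by_cases hx : rot (r.a ω) x ∈ B
      · rw [if_pos hx, Finset.sum_filter]
        refine Finset.sum_congr rfl fun y _ => ?_
        by_cases hy : rot (r.a ω) y ∈ B
        · rw [if_pos hy, if_pos ⟨hx, hy⟩]
        · rw [if_neg hy, if_neg (fun h8 => hy h8.2)]
      · rw [if_neg hx]
        symm
        refine Finset.sum_eq_zero fun y _ => ?_
        rw [if_neg (fun h8 => hx h8.1)]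
    rw [e1, e2, hQN]
    simp only [Pi.add_apply] at hle
    linarith

end Helper23.Riesz
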