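import Pool.Agent.Helper23.Riesz.Target

/-!
# The transfer inequality
-/

set_option autoImplicit false
open MeasureTheory Set Filter Topology
open scoped ENNReal NNReal

namespace Helper23.Riesz

variable {s : ℝ} {d : ℕ}

lemma K_le_of_dist (hs : 0 < s) {t : ℝ} (ht : 0 < t) {x y x' y' : S d}
    (h : t * dist x y ≤ dist x' y') : K s x' y' ≤ t ^ (-s) * K s x y ∨ x = y := by
  rcases eq_or_lt_of_le (dist_nonneg (x := x) (y := y)) with h4 | h4
  · exact Or.inr (dist_eq_zero.1 h4.symm)
  · left
    unfold K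
    rw [← Real.mul_rpow ht.le h4.le]
    exact Real.rpow_le_rpow_of_nonpos (mul_pos ht h4) h (by linarith)

lemma K_ge_of_dist (hs : 0 < s) {t : ℝ} (ht : 0 < t) {x y x' y' : S d} (hne : x' ≠ y')
    (h : dist x' y' ≤ t * dist x y) : t ^ (-s) * K s x y ≤ K s x' y' := by
  unfold K
  rw [← Real.mul_rpow ht.le dist_nonneg]
  exact Real.rpow_le_rpow_of_nonpos (dist_pos.2 hne) h (by linarith)

open Classical in
/-- cell decomposition of the double integral over a box -/
lemma sum_cells (h : KFacts s d) {B : Set (S d)} (hB : MeasurableSet B)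
    {κ : Type*} [Fintype κ] [MeasurableSpace κ] [MeasurableSingletonClass κ] (cell : S d → κ)
    (hcell : Measurable cell) :
    ∫ x in B, ∫ y in B, (if cell x = cell y then K s x y else 0) ∂(sig d) ∂(sig d) =
      ∑ c : κ, ∫ x in B ∩ cell ⁻¹' {c}, ∫ y in B ∩ cell ⁻¹' {c}, K s x y ∂(sig d) ∂(sig d) := by
  have hp := h.prob
  have hBc : ∀ c : κ, MeasurableSet (B ∩ cell ⁻¹' {c}) := fun c =>
    hB.inter (hcell (measurableSet_singleton c))
  have hU : B = ⋃ c ∈ (Finset.univ : Finset κ), B ∩ cell ⁻¹' {c} := by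
    ext x; simp
  have hdis : ((Finset.univ : Finset κ) : Set κ).Pairwise
      (Function.onFun Disjoint fun c => B ∩ cell ⁻¹' {c}) := by
    intro c _ c' _ hne
    rw [Function.onFun, Set.disjoint_left]
    rintro x ⟨-, hx⟩ ⟨-, hx'⟩
    simp only [mem_preimage, mem_singleton_iff] at hx hx'
    exact hne (hx.symm.trans hx')
  have hinner : ∀ x : S d, ∀ c : κ, cell x = c →
      ∫ y in B, (if cell x = cell y then K s x y else 0) ∂(sig d) =
        ∫ y in B ∩ cell ⁻¹' {c}, K s x y ∂(sig d) := by
    intro x c hc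
    rw [← integral_indicator hB, ← integral_indicator (hBc c)]
    refine integral_congr_ae (Eventually.of_forall fun y => ?_)
    by_cases hy : y ∈ B
    · by_cases hyc : cell y = c
      · have h1 : y ∈ B ∩ cell ⁻¹' {c} := ⟨hy, hyc⟩
        simp only [indicator_of_mem hy, indicator_of_mem h1]
        rw [if_pos (hc.trans hyc.symm)]
      · have h1 : y ∉ B ∩ cell ⁻¹' {c} := fun h2 => hyc h2.2
        simp only [indicator_of_mem hy, indicator_of_notMem h1]
        rw [if_neg (fun h2 => hyc (h2.symm.trans hc))]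
    · have h1 : y ∉ B ∩ cell ⁻¹' {c} := fun h2 => hy h2.1
      simp only [indicator_of_notMem hy, indicator_of_notMem h1]
  have hdomB : Dom 1 ((sig d).restrict B) := by
    unfold Dom; rw [one_smul]; exact Measure.restrict_le_self
  have hint : ∀ c : κ, IntegrableOn (fun x =>
      ∫ y in B, (if cell x = cell y then K s x y else 0) ∂(sig d)) (B ∩ cell ⁻¹' {c}) (sig d) := by
    intro c
    have hd : Dom 1 ((sig d).restrict (B ∩ cell ⁻¹' {c})) := by
      unfold Dom; rw [one_smul]; exact Measure.restrict_le_self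
    refine ((hd.integrable_pot h ((sig d).restrict (B ∩ cell ⁻¹' {c}))).congr ?_)
    refine (ae_restrict_iff' (hBc c)).2 (Eventually.of_forall fun x hx => ?_)
    exact (hinner x c hx.2).symm
  set F : S d → ℝ := fun x => ∫ y in B, (if cell x = cell y then K s x y else 0) ∂(sig d) with hF
  have e1 : ∫ x in B, F x ∂(sig d) = ∑ c : κ, ∫ x in B ∩ cell ⁻¹' {c}, F x ∂(sig d) := by
    rw [← integral_biUnion_finset _ (fun c _ => hBc c) hdis (fun c _ => hint c), ← hU]
  rw [e1]
  refine Finset.sum_congr rfl fun c _ => ?_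
  exact setIntegral_congr_fun (hBc c) fun x hx => hinner x c hx.2

lemma integrable_kap (hs : 0 < s) (r : RotSys d) (X : Finset (S d)) {B : Set (S d)}
    (hB : MeasurableSet B) {φ : S d → S d} (hφ : Measurable φ) {t : ℝ} (ht : 0 < t)
    (hlow : ∀ x ∈ B, ∀ y ∈ B, t * dist x y ≤ dist (φ x) (φ y)) :
    Integrable (fun ω => kap s r X B φ ω) r.μ := by
  classical
  exact integrable_finsetSum _ fun x _ => integrable_finsetSum _ fun y _ =>
    integrable_kap_term hs r hB hφ ht hlow x y

open Classical in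
theorem target (h : KFacts s d) (hs : 0 < s) (r : RotSys d) (X : Finset (S d)) (N' : ℕ)
    {t : ℝ} (ht : 0 < t) (htd : t ^ d * N' = X.card) {B : Set (S d)} (hB : MeasurableSet B)
    {ε : ℝ} (hε : 0 ≤ ε) {n : ℕ} (φ : Fin n → S d → S d) (hφm : ∀ k, Measurable (φ k))
    (hφ : ∀ k, ∀ x ∈ B, ∀ y ∈ B, t * dist x y ≤ dist (φ k x) (φ k y) ∧
            dist (φ k x) (φ k y) ≤ (1 + ε) * t * dist x y)
    (hpos : ∑ k, ENNReal.ofReal (t ^ d) • (((sig d).restrict B).map (φ k)) ≤ sig d)
    {κ : Type*} [Fintype κ] [MeasurableSpace κ] [MeasurableSingletonClass κ] (cell : S d → κ)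
    (hcell : Measurable cell) :
    ∃ Y : Finset (S d), en s Y - 2 * N' * Y.card * V s d + (N' : ℝ) ^ 2 * V s d ≤
      n * t ^ (-s) * ((∫ ω, ∑ x ∈ X, ∑ y ∈ X,
          (if rot (r.a ω) x ∈ B ∧ cell (rot (r.a ω) x) = cell (rot (r.a ω) y)
            then K s x y else 0) ∂r.μ)
        - (1 + ε) ^ (-s) * (X.card:ℝ)^2 *
          ∫ x in B, ∫ y in B, (if cell x = cell y then K s x y else 0) ∂(sig d) ∂(sig d))
      + N' * V s d := by
  have hp := h.prob
  have htd' : 0 < t ^ d := pow_pos ht d
  have hBc : ∀ c : κ, MeasurableSet (B ∩ cell ⁻¹' {c}) := fun c =>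
    hB.inter (hcell (measurableSet_singleton c))
  -- domination of the image measures
  have hdomk : ∀ k, Dom (Real.toNNReal (t ^ d))⁻¹ (((sig d).restrict B).map (φ k)) := by
    intro k
    have h1 : ENNReal.ofReal (t ^ d) • (((sig d).restrict B).map (φ k)) ≤ sig d := by
      refine le_trans ?_ hpos
      exact Finset.single_le_sum
        (f := fun k => ENNReal.ofReal (t ^ d) • (((sig d).restrict B).map (φ k)))
        (fun k _ => bot_le) (Finset.mem_univ k)
    intro A
    have h2 := h1 A
    rw [Measure.smul_apply, smul_eq_mul] at h2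
    rw [Measure.smul_apply, ENNReal.smul_def, smul_eq_mul, ENNReal.coe_inv (by simpa using htd'),
      ← ENNReal.ofReal, mul_comm, ← div_eq_mul_inv, ENNReal.le_div_iff_mul_le
      (Or.inl (by simpa using htd')) (Or.inl ENNReal.ofReal_ne_top), mul_comm]
    exact h2
  have hdomkc : ∀ k c, Dom (Real.toNNReal (t ^ d))⁻¹
      (((sig d).restrict (B ∩ cell ⁻¹' {c})).map (φ k)) := by
    intro k c
    refine le_trans ?_ (hdomk k)
    exact Measure.map_mono (Measure.restrict_mono inter_subset_left le_rfl) (hφm k)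
  have hpiece : ∀ p ∈ (Finset.univ : Finset (Fin n × κ)), IsPiece s
      ((X.card : ℝ≥0) • ((sig d).restrict (B ∩ cell ⁻¹' {p.2})).map (φ p.1))
      (∫ ω, kap s r X (B ∩ cell ⁻¹' {p.2}) (φ p.1) ω ∂r.μ - (X.card : ℝ) ^ 2 *
        Q s (((sig d).restrict (B ∩ cell ⁻¹' {p.2})).map (φ p.1))
          (((sig d).restrict (B ∩ cell ⁻¹' {p.2})).map (φ p.1))) := by
    intro p _
    exact IsPiece.rotated h hs r X (hBc p.2) (hφm p.1) ht
      (fun x hx y hy => (hφ p.1 x hx.1 y hy.1).1) (hdomkc p.1 p.2)
  have hsum := IsPiece.sum (s := s) h Finset.univ _ _ hpiece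
  set β : Measure (S d) := ∑ p : Fin n × κ,
    (X.card : ℝ≥0) • ((sig d).restrict (B ∩ cell ⁻¹' {p.2})).map (φ p.1) with hβ
  have hNN : ((X.card : ℝ≥0) : ℝ≥0∞) = ENNReal.ofReal (t ^ d) * (N' : ℝ≥0∞) := by
    have h1 : ((X.card : ℝ≥0) : ℝ≥0∞) = ENNReal.ofReal (X.card : ℝ) := by simp
    rw [h1, ← htd, ENNReal.ofReal_mul htd'.le]
    simp
  have hβle : β ≤ (N' : ℝ≥0) • sig d := by
    rw [Measure.le_iff]
    intro A hA
    rw [hβ, Measure.finsetSum_apply, Fintype.sum_prod_type]
    have h2 : ∀ k, ∑ c : κ, ((X.card : ℝ≥0) •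
        ((sig d).restrict (B ∩ cell ⁻¹' {c})).map (φ k)) A =
        (N' : ℝ≥0∞) * (ENNReal.ofReal (t ^ d) * (((sig d).restrict B).map (φ k)) A) := by
      intro k
      have h3 : ∀ c : κ, ((X.card : ℝ≥0) •
          ((sig d).restrict (B ∩ cell ⁻¹' {c})).map (φ k)) A =
          ((X.card : ℝ≥0) : ℝ≥0∞) * (sig d) (φ k ⁻¹' A ∩ (B ∩ cell ⁻¹' {c})) := by
        intro c
        rw [Measure.smul_apply, ENNReal.smul_def, smul_eq_mul,
          Measure.map_apply (hφm k) hA, Measure.restrict_apply (hφm k hA)]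
      simp_rw [h3]
      rw [← Finset.mul_sum, ← measure_biUnion_finset]
      · have h4 : (⋃ c ∈ (Finset.univ : Finset κ), φ k ⁻¹' A ∩ (B ∩ cell ⁻¹' {c})) =
            φ k ⁻¹' A ∩ B := by
          ext x; simp
        rw [h4, hNN, Measure.map_apply (hφm k) hA, Measure.restrict_apply (hφm k hA)]
        ring
      · intro c _ c' _ hne
        rw [Function.onFun, Set.disjoint_left]
        rintro x ⟨-, -, hx⟩ ⟨-, -, hx'⟩
        simp only [mem_preimage, mem_singleton_iff] at hx hx'
        exact hne (hx.symm.trans hx')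
      · exact fun c _ => (hφm k hA).inter (hBc c)
    simp_rw [h2]
    rw [← Finset.mul_sum]
    have h5 := hpos A
    rw [Measure.finsetSum_apply] at h5
    simp only [Measure.smul_apply, smul_eq_mul] at h5
    rw [Measure.smul_apply, ENNReal.smul_def, smul_eq_mul]
    have h6 : ((N' : ℝ≥0) : ℝ≥0∞) = (N' : ℝ≥0∞) := by simp
    rw [h6]
    gcongr
  have hβf : IsFiniteMeasure β := by
    have : Dom (N' : ℝ≥0) β := hβle
    exact this.finite h
  set τ : Measure (S d) := (N' : ℝ≥0) • sig d - β with hτ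
  have hτβ : τ + β = (N' : ℝ≥0) • sig d := Measure.sub_add_cancel_of_le hβle
  have hτd : Dom (N' : ℝ≥0) τ := by
    unfold Dom; rw [← hτβ]; exact Measure.le_add_right le_rfl
  obtain ⟨ρ, ψ, hρψ, hρ, hψ⟩ := split_points (s := s) h hτd
  have hpc := hsum.add h hρ
  rw [add_zero] at hpc
  obtain ⟨Y, hY⟩ := piece_bound h hpc N' (ψ := ψ) (by
    rw [add_assoc, hρψ]; exact (add_comm β τ).trans hτβ) hψ
  refine ⟨Y, hY.trans ?_⟩
  clear hY hpc hρ hρψ hτβ hτd hsum hpiece
  gcongr
  -- main estimate
  rw [Fintype.sum_prod_type]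
  set A₁ : ℝ := ∫ ω, ∑ x ∈ X, ∑ y ∈ X,
          (if rot (r.a ω) x ∈ B ∧ cell (rot (r.a ω) x) = cell (rot (r.a ω) y)
            then K s x y else 0) ∂r.μ with hA₁
  have hcard : (Finset.univ : Finset (Fin n)).card = n := by simp
  have key : ∀ k : Fin n, ∑ c : κ, (∫ ω, kap s r X (B ∩ cell ⁻¹' {c}) (φ k) ω ∂r.μ -
      (X.card : ℝ) ^ 2 *
        Q s (((sig d).restrict (B ∩ cell ⁻¹' {c})).map (φ k))
          (((sig d).restrict (B ∩ cell ⁻¹' {c})).map (φ k))) ≤
      t ^ (-s) * (A₁ - (1 + ε) ^ (-s) * (X.card:ℝ)^2 *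
          ∫ x in B, ∫ y in B, (if cell x = cell y then K s x y else 0) ∂(sig d) ∂(sig d)) := by
    intro k
    rw [Finset.sum_sub_distrib, ← Finset.mul_sum]
    have h7 : ∑ c : κ, ∫ ω, kap s r X (B ∩ cell ⁻¹' {c}) (φ k) ω ∂r.μ ≤ t ^ (-s) * A₁ := by
      have hki : ∀ c : κ, Integrable (fun ω => kap s r X (B ∩ cell ⁻¹' {c}) (φ k) ω) r.μ :=
        fun c => integrable_kap hs r X (hBc c) (hφm k) ht
            (fun x hx y hy => (hφ k x hx.1 y hy.1).1)
      rw [← integral_finsetSum _ (fun c _ => hki c), hA₁, ← integral_const_mul]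
      refine integral_mono (integrable_finsetSum _ fun c _ => hki c) ?_ fun ω => ?_
      · refine Integrable.const_mul ?_ _
        refine integrable_finsetSum _ fun x _ => integrable_finsetSum _ fun y _ => ?_
        refine Integrable.of_bound (C := K s x y) ?_ (Eventually.of_forall fun ω => ?_)
        · refine Measurable.aestronglyMeasurable (Measurable.ite ?_ measurable_const
            measurable_const)
          exact (r.meas_pt x hB).inter (measurableSet_eq_fun (hcell.comp (r.meas_pt x))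
            (hcell.comp (r.meas_pt y)))
        · split_ifs
          · rw [Real.norm_of_nonneg (K_nonneg _ _ _)]
          · rw [norm_zero]; exact K_nonneg _ _ _
      · show ∑ c : κ, kap s r X (B ∩ cell ⁻¹' {c}) (φ k) ω ≤ _
        unfold kap
        rw [Finset.sum_comm, Finset.mul_sum]
        refine Finset.sum_le_sum fun x _ => ?_
        rw [Finset.sum_comm, Finset.mul_sum]
        refine Finset.sum_le_sum fun y _ => ?_
        have hnn : 0 ≤ t ^ (-s) * K s x y := mul_nonneg (Real.rpow_nonneg ht.le _) (K_nonneg _ _ _)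
        by_cases hx : rot (r.a ω) x ∈ B ∧ rot (r.a ω) y ∈ B ∧
            cell (rot (r.a ω) x) = cell (rot (r.a ω) y)
        · rw [Finset.sum_eq_single (cell (rot (r.a ω) x))]
          · rw [if_pos ⟨⟨hx.1, rfl⟩, ⟨hx.2.1, hx.2.2.symm⟩⟩, if_pos ⟨hx.1, hx.2.2⟩]
            have h10 := (hφ k _ hx.1 _ hx.2.1).1
            rcases K_le_of_dist hs ht h10 with h11 | h11
            · rwa [K_rot] at h11
            · rw [h11, K_self hs.ne']
              exact hnn
          · intro c _ hc
            rw [if_neg]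
            rintro ⟨⟨-, h12⟩, -⟩
            exact hc h12.symm
          · intro h12
            exact absurd (Finset.mem_univ _) h12
        · have h13 : ∀ c : κ, ¬ (rot (r.a ω) x ∈ B ∩ cell ⁻¹' {c} ∧
              rot (r.a ω) y ∈ B ∩ cell ⁻¹' {c}) := by
            rintro c ⟨⟨h14, h15⟩, ⟨h16, h17⟩⟩
            simp only [mem_preimage, mem_singleton_iff] at h15 h17
            exact hx ⟨h14, h16, h15.trans h17.symm⟩
          refine le_trans (le_of_eq (Finset.sum_eq_zero fun c _ => if_neg (h13 c))) ?_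
          split_ifs
          · exact hnn
          · simp
    have h8 : (t ^ (-s) * (1 + ε) ^ (-s)) * ∫ x in B, ∫ y in B,
        (if cell x = cell y then K s x y else 0) ∂(sig d) ∂(sig d) ≤
        ∑ c : κ, Q s (((sig d).restrict (B ∩ cell ⁻¹' {c})).map (φ k))
          (((sig d).restrict (B ∩ cell ⁻¹' {c})).map (φ k)) := by
      rw [sum_cells h hB cell hcell, Finset.mul_sum]
      refine Finset.sum_le_sum fun c _ => ?_
      set Bc := B ∩ cell ⁻¹' {c} with hBcdef
      have hdB : Dom 1 ((sig d).restrict Bc) := by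
        unfold Dom; rw [one_smul]; exact Measure.restrict_le_self
      have hdm := hdomkc k c
      have hfm : IsFiniteMeasure (((sig d).restrict Bc).map (φ k)) := hdm.finite h
      unfold Q
      have hpm := measurable_pot (s := s) (((sig d).restrict Bc).map (φ k))
      rw [integral_map (hφm k).aemeasurable hpm.aestronglyMeasurable, ← integral_const_mul]
      have hpint : Integrable (fun x => ∫ y, K s (φ k x) y ∂(((sig d).restrict Bc).map (φ k)))
          ((sig d).restrict Bc) := by
        have h20 := hdm.integrable_pot h (((sig d).restrict Bc).map (φ k))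
        exact (integrable_map_measure hpm.aestronglyMeasurable (hφm k).aemeasurable).1 h20
      refine setIntegral_mono_on ?_ hpint (hBc c) fun x hx => ?_
      · exact (hdB.integrable_pot h ((sig d).restrict Bc)).const_mul _
      · rw [integral_map (hφm k).aemeasurable (measurable_K_left _).aestronglyMeasurable,
          ← integral_const_mul]
        have h21 : Integrable (fun y => K s (φ k x) (φ k y)) ((sig d).restrict Bc) :=
          (integrable_map_measure (measurable_K_left _).aestronglyMeasurable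
            (hφm k).aemeasurable).1 (hdm.integrable h (φ k x))
        refine setIntegral_mono_on ((hdB.integrable h x).const_mul _) h21 (hBc c) fun y hy => ?_
        have h22 := hφ k x hx.1 y hy.1
        by_cases hxy : x = y
        · subst hxy
          rw [K_self hs.ne', mul_zero]
          exact K_nonneg _ _ _
        · have hne : φ k x ≠ φ k y := by
            intro h23
            rw [h23, dist_self] at h22
            have := mul_pos ht (dist_pos.2 hxy)
            linarith [h22.1]
          have h24 := K_ge_of_dist (s := s) hs (mul_pos (by linarith : (0:ℝ) < 1 + ε) ht) hne h22.2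
          rw [Real.mul_rpow (by linarith) ht.le] at h24
          calc t ^ (-s) * (1 + ε) ^ (-s) * K s x y = (1 + ε) ^ (-s) * t ^ (-s) * K s x y := by ring
            _ ≤ _ := h24
    have h9 : (0:ℝ) ≤ (X.card : ℝ) ^ 2 := by positivity
    nlinarith [mul_le_mul_of_nonneg_left h8 h9]
  calc _ ≤ ∑ k : Fin n, t ^ (-s) * (A₁ - (1 + ε) ^ (-s) * (X.card:ℝ)^2 *
          ∫ x in B, ∫ y in B, (if cell x = cell y then K s x y else 0) ∂(sig d) ∂(sig d)) :=
        Finset.sum_le_sum fun k _ => key k
    _ = _ := by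
        rw [Finset.sum_const, hcard, nsmul_eq_mul]; ring

end Helper23.Riesz
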