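import Pool.Agent.Helper23.Riesz.Target
import Pool.Agent.Helper94.Riesz.Mis

set_option autoImplicit false
open MeasureTheory Set Filter Topology
open scoped ENNReal NNReal

namespace Helper23.Riesz

/-- the transfer inequality with cut-off function `h` -/
def Transfer (s : ℝ) (d : ℕ) (C₀ : ℝ) (h : ℝ → ℝ) : Prop :=
  ∀ (X : Finset (S d)) (N' : ℕ), 1 ≤ N' → ∀ t : ℝ, 0 < t → t ^ d * N' = X.card →
    ∀ B : Set (S d), MeasurableSet B → ∀ ε : ℝ, 0 ≤ ε → ∀ (n : ℕ) (φ : Fin n → S d → S d),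
    (∀ k, Measurable (φ k)) →
    (∀ k, ∀ x ∈ B, ∀ y ∈ B, t * dist x y ≤ dist (φ k x) (φ k y) ∧
            dist (φ k x) (φ k y) ≤ (1 + ε) * t * dist x y) →
    (∑ k, ENNReal.ofReal (t ^ d) • (((sig d).restrict B).map (φ k)) ≤ sig d) →
    Emin s d N' - (N' : ℝ) ^ 2 * V s d ≤
      n * t ^ (-s) * ((sig d).real B * (∑ x ∈ X, ∑ y ∈ X, K s x y * h (dist x y)) -
        (1 + ε) ^ (-s) * (X.card : ℝ) ^ 2 *
          ∫ x in B, ∫ y in B, K s x y * h (dist x y) ∂(sig d) ∂(sig d)) +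
      C₀ * ((N' : ℝ) ^ (2 * s / d) + N')

/-- the standing facts hold for `0 < s < d` -/
theorem kfacts {d : ℕ} (hd : 1 ≤ d) {s : ℝ} (hs : 0 < s) (hsd : s < d) : KFacts s d where
  prob := isProbabilityMeasure_sig d
  s0 := hs.ne'
  int := integrable_K hd hs hsd
  pot := integral_K
  atom := sig_singleton hd

end Helper23.Riesz
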